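import Pool.Agent.H85.TB.Sl

/-!
# Bounded reachability by allowed moves
-/

set_option autoImplicit false

namespace H85.TA

open Pointwise

variable {G Ω : Type*} [Group G] [MulAction G Ω]

open Classical in
/-- the points reached from `x` by at most `r` allowed moves -/
noncomputable def Rch (S : Finset G) (ok : G → Ω → Prop) (x : Ω) : ℕ → Finset Ω
  | 0 => {x}
  | r + 1 => Rch S ok x r ∪ ((S ×ˢ Rch S ok x r).filter fun p => ok p.1 p.2).image fun p => p.1 • p.2

variable {S : Finset G} {ok : G → Ω → Prop}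

theorem rch_zero (x : Ω) : Rch S ok x 0 = {x} := rfl

open Classical in
theorem mem_rch_succ {x u : Ω} {r : ℕ} : u ∈ Rch S ok x (r + 1) ↔
    u ∈ Rch S ok x r ∨ ∃ s ∈ S, ∃ v ∈ Rch S ok x r, ok s v ∧ s • v = u := by
  rw [Rch, Finset.mem_union, Finset.mem_image]
  refine or_congr Iff.rfl ?_
  constructor
  · rintro ⟨p, hp, rfl⟩
    rw [Finset.mem_filter, Finset.mem_product] at hp
    exact ⟨p.1, hp.1.1, p.2, hp.1.2, hp.2, rfl⟩
  · rintro ⟨s, hs, v, hv, h1, rfl⟩
    exact ⟨(s, v), Finset.mem_filter.2 ⟨Finset.mem_product.2 ⟨hs, hv⟩, h1⟩, rfl⟩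

/-- closed under allowed moves -/
def Closd (S : Finset G) (ok : G → Ω → Prop) (D : Finset Ω) : Prop :=
  ∀ s ∈ S, ∀ u ∈ D, ok s u → s • u ∈ D

theorem rch_mono (x : Ω) : Monotone (Rch S ok x) :=
  monotone_nat_of_le_succ fun _ _ hu => mem_rch_succ.2 (Or.inl hu)

theorem rch_self (x : Ω) (r : ℕ) : x ∈ Rch S ok x r :=
  rch_mono x (Nat.zero_le r) (by rw [rch_zero]; exact Finset.mem_singleton_self x)

theorem rch_sub {x : Ω} {D : Finset Ω} (hx : x ∈ D) (hD : Closd S ok D) (r : ℕ) :
    Rch S ok x r ⊆ D := by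
  induction r with
  | zero =>
    rw [rch_zero]
    exact Finset.singleton_subset_iff.2 hx
  | succ r ih =>
    intro u hu
    rcases mem_rch_succ.1 hu with h | ⟨s, hs, v, hv, h1, rfl⟩
    · exact ih h
    · exact hD s hs v (ih hv) h1

theorem rch_const {x : Ω} {r : ℕ} (h : Rch S ok x (r + 1) = Rch S ok x r) (k : ℕ) :
    Rch S ok x (r + k) = Rch S ok x r := by
  induction k with
  | zero => rfl
  | succ k ih =>
    ext u
    rw [← Nat.add_assoc, mem_rch_succ, ih, ← mem_rch_succ, h]

/-- if `V` is closed and has at most `L` points then everything is reached in `L` steps -/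
theorem rch_closd {x : Ω} {V : Finset Ω} (hx : x ∈ V) (hV : Closd S ok V) {L : ℕ}
    (hL : V.card ≤ L) : Closd S ok (Rch S ok x L) := by
  have h1 : ∃ r ≤ L, Rch S ok x (r + 1) = Rch S ok x r := by
    by_contra hcon
    push Not at hcon
    have h2 : ∀ r ≤ L + 1, r + 1 ≤ (Rch S ok x r).card := by
      intro r
      induction r with
      | zero =>
        intro _
        rw [rch_zero, Finset.card_singleton]
      | succ r ih =>
        intro hr
        have h3 := ih (by omega)
        have h4 : Rch S ok x r ⊂ Rch S ok x (r + 1) :=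
          lt_of_le_of_ne (rch_mono x (Nat.le_succ r)) (Ne.symm (hcon r (by omega)))
        have h5 := Finset.card_lt_card h4
        omega
    have h3 := h2 (L + 1) le_rfl
    have h4 := Finset.card_le_card (rch_sub hx hV (L + 1))
    omega
  obtain ⟨r, hr, hr'⟩ := h1
  obtain ⟨k, rfl⟩ := Nat.exists_eq_add_of_le hr
  have h2 := rch_const hr' k
  have h3 := rch_const hr' (k + 1)
  intro s hs u hu h4
  have h5 : s • u ∈ Rch S ok x (r + k + 1) := mem_rch_succ.2 (Or.inr ⟨s, hs, u, hu, h4, rfl⟩)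
  rw [Nat.add_assoc, h3, ← h2] at h5
  exact h5

/-- reversing allowed moves -/
theorem rch_back {x u : Ω} {D : Finset Ω} (hD : Closd S ok D)
    (hsym : ∀ s ∈ S, ∀ v, ok s v → s⁻¹ ∈ S ∧ ok s⁻¹ (s • v)) (hu : u ∈ D) {r : ℕ}
    (hur : u ∈ Rch S ok x r) : x ∈ D := by
  induction r generalizing u with
  | zero =>
    rw [rch_zero, Finset.mem_singleton] at hur
    rwa [← hur]
  | succ r ih =>
    rcases mem_rch_succ.1 hur with h | ⟨s, hs, v, hv, h1, rfl⟩
    · exact ih hu h
    · obtain ⟨h2, h3⟩ := hsym s hs v h1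
      have h4 := hD s⁻¹ h2 (s • v) hu h3
      rw [inv_smul_smul] at h4
      exact ih h4 hv

/-- the components are classes -/
theorem rch_eq {x u : Ω} {V : Finset Ω} (hx : x ∈ V) (hV : Closd S ok V) {L : ℕ}
    (hL : V.card ≤ L) (hsym : ∀ s ∈ S, ∀ v, ok s v → s⁻¹ ∈ S ∧ ok s⁻¹ (s • v))
    (hu : u ∈ Rch S ok x L) : Rch S ok u L = Rch S ok x L := by
  have h1 := rch_closd hx hV hL
  have huV : u ∈ V := rch_sub hx hV L hu
  have h2 := rch_closd huV hV hL
  refine le_antisymm (rch_sub hu h1 L) (rch_sub ?_ h2 L)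
  exact rch_back h2 hsym (rch_self u L) hu

open Classical in
/-- the ball of radius one -/
noncomputable def bl (S : Finset G) : Finset G := ball S

theorem mem_bl {S : Finset G} {g : G} : g ∈ bl S ↔ g = 1 ∨ g ∈ S ∨ g⁻¹ ∈ S := by
  simp only [bl, ball, Finset.mem_insert, Finset.mem_union, Finset.mem_inv']

open Classical in
/-- the ball of radius `r` -/
noncomputable def bpow (S : Finset G) (r : ℕ) : Finset G := (ball S) ^ r

open Classical in
/-- the elements which lead to the points -/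
theorem rch_elem {x u : Ω} {P : G → Prop} (hP1 : P 1)
    (hP : ∀ g s, P g → s ∈ S → ok s (g • x) → P (s * g)) {r : ℕ} (hu : u ∈ Rch S ok x r) :
    ∃ a ∈ bpow S r, a • x = u ∧ P a := by
  unfold bpow
  induction r generalizing u with
  | zero =>
    rw [rch_zero, Finset.mem_singleton] at hu
    exact ⟨1, by simp, by rw [one_smul, hu], hP1⟩
  | succ r ih =>
    rcases mem_rch_succ.1 hu with h | ⟨s, hs, v, hv, h1, rfl⟩
    · obtain ⟨a, ha, h2, h3⟩ := ih h
      exact ⟨a, pow_mono S (Nat.le_succ r) ha, h2, h3⟩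
    · obtain ⟨a, ha, h2, h3⟩ := ih hv
      refine ⟨s * a, ?_, by rw [mul_smul, h2], hP a s h3 hs (by rwa [h2])⟩
      rw [pow_succ']
      refine Finset.mul_mem_mul ?_ ha
      exact Finset.mem_insert_of_mem (Finset.mem_union_left _ hs)

end H85.TA
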