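import Pool.Agent.H85.TA.Gr1

/-!
# Groups with the maximum condition are countable and have countably many subgroups
-/

set_option autoImplicit false

namespace H85.TA

open Pointwise

theorem countable_of_max {G : Type*} [Group G] (hmax : ∀ H : Subgroup G, H.FG) : Countable G := by
  classical
  obtain ⟨S, hS⟩ := hmax ⊤
  rw [← Set.countable_univ_iff]
  have h1 : (Set.univ : Set G) ⊆ ⋃ r : ℕ, (((ball S) ^ r : Finset G) : Set G) := by
    intro g _
    have hg : g ∈ Subgroup.closure (S : Set G) := by
      rw [hS]
      exact Subgroup.mem_top g
    obtain ⟨r, hr⟩ := exists_mem_pow S hg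
    exact Set.mem_iUnion.2 ⟨r, hr⟩
  exact (Set.countable_iUnion fun r => Finset.countable_toSet _).mono h1

theorem countable_subgroups {G : Type*} [Group G] (hmax : ∀ H : Subgroup G, H.FG) :
    Countable (Subgroup G) := by
  have := countable_of_max hmax
  have h1 : Function.Surjective fun S : Finset G => Subgroup.closure (S : Set G) := fun H => by
    obtain ⟨S, hS⟩ := hmax H
    exact ⟨S, hS⟩
  exact h1.countable

end H85.TA
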