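import Pool.Agent.H85.TA.Gr5

/-!
# The structure of the groups with a coset space of slow growth
-/

set_option autoImplicit false

namespace H85.TA

variable {G : Type*} [Group G]

/-- the conjugate of `H` by `g` -/
def cj (H : Subgroup G) (g : G) : Subgroup G := H.map (MulAut.conj g).toMonoidHom

theorem mem_cj {H : Subgroup G} {g x : G} : x ∈ cj H g ↔ g⁻¹ * x * g ∈ H := by
  constructor
  · rintro ⟨y, hy, rfl⟩
    have h1 : g⁻¹ * (MulAut.conj g).toMonoidHom y * g = y := by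
      change g⁻¹ * (g * y * g⁻¹) * g = y
      group
    rw [h1]
    exact hy
  · intro h
    refine ⟨g⁻¹ * x * g, h, ?_⟩
    change g * (g⁻¹ * x * g) * g⁻¹ = x
    group

theorem mem_inf_cj {K H : Subgroup G} {g x : G} : x ∈ K ⊓ cj H g ↔ x ∈ K ∧ g⁻¹ * x * g ∈ H := by
  rw [Subgroup.mem_inf, mem_cj]

/-- the size of the boundary of `A` modulo `H` -/
noncomputable def bdm (H : Subgroup G) (S A : Finset G) : ℕ := by
  classical
  exact ∑ s ∈ S, (A.filter fun a => ∀ b ∈ A, b⁻¹ * (s * a) ∉ H).card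

open Classical in
theorem bdm_eq (H : Subgroup G) (S A : Finset G) :
    bdm H S A = ∑ s ∈ S, (A.filter fun a => ∀ b ∈ A, b⁻¹ * (s * a) ∉ H).card := by
  unfold bdm
  rfl

open Classical in
theorem exists_part {ι : Type*} (H : Subgroup G) (S A : Finset G) (c : ℕ) (q : G → ι)
    (hq : ∀ s ∈ S, ∀ a, q (s * a) = q a) (hH : ∀ a b, b⁻¹ * a ∈ H → q b = q a)
    (h : c * (bdm H S A) ^ 2 < A.card) :
    ∃ t : ι, ∃ A' : Finset G, A' ⊆ A ∧ A'.Nonempty ∧ (∀ a ∈ A', q a = t) ∧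
      c * (bdm H S A') ^ 2 < A'.card := by
  suffices h0 : ∃ t : ι, c * (bdm H S (A.filter fun a => q a = t)) ^ 2 <
      (A.filter fun a => q a = t).card by
    obtain ⟨t, ht⟩ := h0
    exact ⟨t, _, Finset.filter_subset _ _, Finset.card_pos.1 (lt_of_le_of_lt (Nat.zero_le _) ht),
      fun a ha => (Finset.mem_filter.1 ha).2, ht⟩
  by_contra hcon
  push Not at hcon
  have h1 : A.card = ∑ t ∈ A.image q, (A.filter fun a => q a = t).card :=
    Finset.card_eq_sum_card_image q A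
  have h2 : bdm H S A = ∑ t ∈ A.image q, bdm H S (A.filter fun a => q a = t) := by
    simp only [bdm_eq]
    rw [Finset.sum_comm]
    refine Finset.sum_congr rfl fun s hs => ?_
    rw [Finset.card_eq_sum_card_fiberwise (f := q) (t := A.image q) fun w hw =>
      Finset.mem_image_of_mem q (Finset.mem_filter.1 hw).1]
    refine Finset.sum_congr rfl fun t _ => ?_
    congr 1
    ext a
    simp only [Finset.mem_filter]
    constructor
    · rintro ⟨⟨h3, h4⟩, h5⟩
      exact ⟨⟨h3, h5⟩, fun b hb => h4 b hb.1⟩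
    · rintro ⟨⟨h3, h5⟩, h4⟩
      refine ⟨⟨h3, fun b hb hbH => ?_⟩, h5⟩
      refine h4 b ⟨hb, ?_⟩ hbH
      rw [hH _ _ hbH, hq s hs, h5]
  have h3 : A.card ≤ c * (∑ t ∈ A.image q, bdm H S (A.filter fun a => q a = t)) ^ 2 := by
    calc A.card = ∑ t ∈ A.image q, (A.filter fun a => q a = t).card := h1
      _ ≤ ∑ t ∈ A.image q, c * (bdm H S (A.filter fun a => q a = t)) ^ 2 :=
          Finset.sum_le_sum fun t _ => hcon t
      _ = c * ∑ t ∈ A.image q, (bdm H S (A.filter fun a => q a = t)) ^ 2 := by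
          rw [Finset.mul_sum]
      _ ≤ _ := Nat.mul_le_mul_left c (Finset.sum_sq_le_sq_sum_of_nonneg fun _ _ => Nat.zero_le _)
  rw [h2] at h
  exact absurd h (not_lt.2 h3)

/-- the hypothesis of thin sets in the coset space of `H` -/
def ThinSets (H : Subgroup G) : Prop :=
  ∀ (S : Finset G) (c : ℕ), ∃ A : Finset G, A.Nonempty ∧
    (∀ a ∈ A, ∀ b ∈ A, a⁻¹ * b ∈ H → a = b) ∧ c * (bdm H S A) ^ 2 < A.card

open Classical in
theorem va_core (hmax : ∀ H : Subgroup G, H.FG) (H : Subgroup G)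
    (hN : (Subgroup.normalizer (H : Set G)).FiniteIndex) (h : ThinSets H) :
    VA (⊤ : Subgroup G) H.normalCore := by
  let K : Subgroup G := (Subgroup.normalizer (H : Set G)).normalCore
  have hKn : K.Normal := Subgroup.normalCore_normal _
  have hKf : K.FiniteIndex := Subgroup.finiteIndex_normalCore _
  have hKN : K ≤ Subgroup.normalizer (H : Set G) := Subgroup.normalCore_le _
  have hMf : (K ⊔ H).FiniteIndex := Subgroup.finiteIndex_of_le le_sup_left
  obtain ⟨S, hS⟩ := hmax K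
  have hSK : ∀ s ∈ S, s ∈ K := fun s hs => by
    rw [← hS]
    exact Subgroup.subset_closure hs
  let q : G → G ⧸ (K ⊔ H) := fun g => (g : G ⧸ (K ⊔ H))
  have hqeq : ∀ a b : G, q a = q b ↔ a⁻¹ * b ∈ K ⊔ H := fun a b => QuotientGroup.eq
  have hq : ∀ s ∈ S, ∀ a, q (s * a) = q a := by
    intro s hs a
    rw [hqeq]
    refine Subgroup.mem_sup_left ?_
    have h1 := hKn.conj_mem _ (K.inv_mem (hSK s hs)) a⁻¹
    have h2 : (s * a)⁻¹ * a = a⁻¹ * s⁻¹ * a⁻¹⁻¹ := by group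
    rw [h2]
    exact h1
  have hqH : ∀ a b, b⁻¹ * a ∈ H → q b = q a := fun a b hab =>
    (hqeq b a).2 (Subgroup.mem_sup_right hab)
  -- one coset for all c
  have h1 : ∃ t : G ⧸ (K ⊔ H), ∀ c : ℕ, ∃ A : Finset G, A.Nonempty ∧ (∀ a ∈ A, q a = t) ∧
      (∀ a ∈ A, ∀ b ∈ A, a⁻¹ * b ∈ H → a = b) ∧ c * (bdm H S A) ^ 2 < A.card := by
    by_contra hcon
    push Not at hcon
    choose e he using hcon
    have hfin : Finite (G ⧸ (K ⊔ H)) := inferInstance
    have := Fintype.ofFinite (G ⧸ (K ⊔ H))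
    obtain ⟨A, hA1, hA2, hA3⟩ := h S (Finset.univ.sup e)
    obtain ⟨t, A', hA', hne, hAt, ht⟩ := exists_part H S A _ q hq hqH hA3
    have h2 := he t A' hne hAt (fun a ha b hb => hA2 a (hA' ha) b (hA' hb))
    have h3 : e t * (bdm H S A') ^ 2 ≤ Finset.univ.sup e * (bdm H S A') ^ 2 :=
      Nat.mul_le_mul_right _ (Finset.le_sup (f := e) (Finset.mem_univ t))
    exact absurd (h2.trans h3) (not_le.2 ht)
  obtain ⟨t, ht⟩ := h1
  obtain ⟨g, rfl⟩ := Quotient.exists_rep t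
  -- the normal subgroup of K
  have hcn : ∀ x : G, ∀ k ∈ K, ∀ y ∈ K ⊓ cj H x, k * y * k⁻¹ ∈ K ⊓ cj H x := by
    intro x k hk y hy
    obtain ⟨hy1, hy2⟩ := mem_inf_cj.1 hy
    refine mem_inf_cj.2 ⟨K.mul_mem (K.mul_mem hk hy1) (K.inv_mem hk), ?_⟩
    have h2 : x⁻¹ * k * x ∈ Subgroup.normalizer (H : Set G) := by
      refine hKN ?_
      have h3 := hKn.conj_mem _ hk x⁻¹
      rwa [inv_inv] at h3
    have h4 := (Subgroup.mem_normalizer_iff.1 h2 _).1 hy2
    have h5 : x⁻¹ * (k * y * k⁻¹) * x = x⁻¹ * k * x * (x⁻¹ * y * x) * (x⁻¹ * k * x)⁻¹ := by group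
    rw [h5]
    exact h4
  have hva : VA K (K ⊓ cj H g) := by
    refine va_of_sets K (K ⊓ cj H g) inf_le_left (hcn g) S hS fun c => ?_
    obtain ⟨A, hA1, hA2, hA3, hA4⟩ := ht c
    have h2 : ∀ a ∈ A, ∃ k ∈ K, ∃ y ∈ H, a = k * g * y := by
      intro a ha
      have h3 := (hqeq g a).1 (hA2 a ha).symm
      rw [← SetLike.mem_coe, Subgroup.normal_mul K H] at h3
      obtain ⟨k, hk, y, hy, hky⟩ := Set.mem_mul.1 h3
      refine ⟨g * k * g⁻¹, hKn.conj_mem _ hk g, y, hy, ?_⟩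
      have h4 : g * k * g⁻¹ * g * y = g * (k * y) := by group
      rw [h4, hky]
      group
    choose! κ hκ y hy hay using h2
    have hrel : ∀ a ∈ A, ∀ b ∈ A, ∀ s ∈ K, ((κ b)⁻¹ * (s * κ a) ∈ K ⊓ cj H g ↔
        b⁻¹ * (s * a) ∈ H) := by
      intro a ha b hb s hs
      have h3 : (κ b)⁻¹ * (s * κ a) ∈ K :=
        K.mul_mem (K.inv_mem (hκ b hb)) (K.mul_mem hs (hκ a ha))
      have h4 : b⁻¹ * (s * a) = (y b)⁻¹ * (g⁻¹ * ((κ b)⁻¹ * (s * κ a)) * g) * y a := by
        conv_lhs => rw [hay a ha, hay b hb]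
        group
      constructor
      · intro h5'
        have h5 := (mem_inf_cj.1 h5').2
        rw [h4]
        exact H.mul_mem (H.mul_mem (H.inv_mem (hy b hb)) h5) (hy a ha)
      · intro h5
        refine mem_inf_cj.2 ⟨h3, ?_⟩
        have h6 : g⁻¹ * ((κ b)⁻¹ * (s * κ a)) * g = y b * (b⁻¹ * (s * a)) * (y a)⁻¹ := by
          rw [h4]
          group
        rw [h6]
        exact H.mul_mem (H.mul_mem (hy b hb) h5) (H.inv_mem (hy a ha))
    have hinj : Set.InjOn κ (A : Set G) := by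
      intro a ha b hb hab
      refine hA3 a ha b hb ?_
      have h3 := (hrel b hb a ha 1 K.one_mem).1 (by
        rw [one_mul, hab, inv_mul_cancel]
        exact Subgroup.one_mem _)
      rwa [one_mul] at h3
    refine ⟨A.image κ, hA1.image κ, ?_, ?_, ?_⟩
    · intro a ha
      obtain ⟨a', ha', rfl⟩ := Finset.mem_image.1 ha
      exact hκ a' ha'
    · intro a ha b hb hab
      obtain ⟨a', ha', rfl⟩ := Finset.mem_image.1 ha
      obtain ⟨b', hb', rfl⟩ := Finset.mem_image.1 hb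
      have h3 := (hrel b' hb' a' ha' 1 K.one_mem).1 (by rwa [one_mul])
      rw [one_mul] at h3
      rw [hA3 a' ha' b' hb' h3]
    · rw [Finset.card_image_of_injOn hinj]
      have h3 : (∑ s ∈ S, ((A.image κ).filter fun a => ∀ b ∈ A.image κ,
          b⁻¹ * (s * a) ∉ K ⊓ cj H g).card) ≤ bdm H S A := by
        rw [bdm_eq]
        refine Finset.sum_le_sum fun s hs => ?_
        rw [Finset.filter_image]
        refine (Finset.card_image_le).trans (Finset.card_le_card ?_)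
        intro a ha
        rw [Finset.mem_filter] at ha ⊢
        refine ⟨ha.1, fun b hb hbH => ?_⟩
        exact ha.2 (κ b) (Finset.mem_image_of_mem κ hb) ((hrel a ha.1 b hb s (hSK s hs)).2 hbH)
      exact lt_of_le_of_lt (Nat.mul_le_mul_left c (Nat.pow_le_pow_left h3 2)) hA4
  have hva' : ∀ x : G, VA K (K ⊓ cj H x) := by
    intro x
    refine hva.conj (x * g⁻¹) ?_ ?_
    · intro z
      constructor
      · intro hz
        have h3 := hKn.conj_mem _ hz (x * g⁻¹)⁻¹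
        rwa [inv_inv] at h3
      · intro hz
        have h3 := hKn.conj_mem _ hz (x * g⁻¹)
        have h4 : x * g⁻¹ * ((x * g⁻¹)⁻¹ * z * (x * g⁻¹)) * (x * g⁻¹)⁻¹ = z := by group
        rwa [h4] at h3
    · intro z hz
      obtain ⟨hz1, hz2⟩ := mem_inf_cj.1 hz
      refine mem_inf_cj.2 ⟨hKn.conj_mem _ hz1 _, ?_⟩
      have h4 : x⁻¹ * (x * g⁻¹ * z * (x * g⁻¹)⁻¹) * x = g⁻¹ * z * g := by group
      rw [h4]
      exact hz2
  have hfinN : Finite (G ⧸ Subgroup.normalizer (H : Set G)) := inferInstance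
  have h5 : VA K (⨅ u : G ⧸ Subgroup.normalizer (H : Set G), K ⊓ cj H u.out) :=
    VA.iInf fun u => hva' _
  refine VA.of_relIndex (K' := K) (h5.mono_right ?_) le_top ?_
  · intro z hz b
    rw [Subgroup.mem_iInf] at hz
    have h6 := (mem_inf_cj.1 (hz (b⁻¹ : G))).2
    have h7 : ((((b⁻¹ : G) : G ⧸ Subgroup.normalizer (H : Set G)).out : G) :
        G ⧸ Subgroup.normalizer (H : Set G)) = ((b⁻¹ : G) : G ⧸ Subgroup.normalizer (H : Set G)) :=
      Quotient.out_eq _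
    rw [QuotientGroup.eq] at h7
    set w := ((b⁻¹ : G) : G ⧸ Subgroup.normalizer (H : Set G)).out with hw
    have h8 := (Subgroup.mem_normalizer_iff.1 (Subgroup.inv_mem _ h7) _).1 h6
    have h9 : (w⁻¹ * b⁻¹)⁻¹ * (w⁻¹ * z * w) * (w⁻¹ * b⁻¹)⁻¹⁻¹ = b * z * b⁻¹ := by group
    rwa [h9] at h8
  · rw [Subgroup.relIndex_top_right]
    exact hKf.index_ne_zero

end H85.TA
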