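import Pool.Agent.H85.TA.Slw
import Pool.Agent.H85.TB.St

/-!
# Automorphisms with few active vertices on all orbit trees
-/

set_option autoImplicit false

namespace H85.TA

variable {X : Type*}

/-- `f = o(√N)` -/
def Slowf (f : ℕ → ℕ) : Prop := ∀ c : ℕ, ∃ N₀ : ℕ, ∀ N ≥ N₀, c * (f N) ^ 2 < N

theorem Slowf.const (C : ℕ) : Slowf fun _ => C := fun c => ⟨c * C ^ 2 + 1, fun N hN => by
  change c * C ^ 2 < N
  omega⟩

theorem Slowf.add {f f' : ℕ → ℕ} (h : Slowf f) (h' : Slowf f') : Slowf fun N => f N + f' N := by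
  intro c
  obtain ⟨N₀, hN₀⟩ := h (4 * c)
  obtain ⟨N₁, hN₁⟩ := h' (4 * c)
  refine ⟨max N₀ N₁, fun N hN => ?_⟩
  have h1 := hN₀ N ((le_max_left _ _).trans hN)
  have h2 := hN₁ N ((le_max_right _ _).trans hN)
  have h3 : (f N + f' N) ^ 2 ≤ 2 * f N ^ 2 + 2 * f' N ^ 2 := by
    have h4 : ((f N : ℤ) + f' N) ^ 2 ≤ 2 * (f N : ℤ) ^ 2 + 2 * (f' N : ℤ) ^ 2 := by
      nlinarith [sq_nonneg ((f N : ℤ) - f' N)]
    exact_mod_cast h4
  have h5 := Nat.mul_le_mul_left c h3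
  have h6 : c * (2 * f N ^ 2 + 2 * f' N ^ 2) = 2 * (c * f N ^ 2) + 2 * (c * f' N ^ 2) := by ring
  have h7 : 4 * c * f N ^ 2 = 4 * (c * f N ^ 2) := by ring
  have h8 : 4 * c * f' N ^ 2 = 4 * (c * f' N ^ 2) := by ring
  change c * (f N + f' N) ^ 2 < N
  rw [h6] at h5
  rw [h7] at h1
  rw [h8] at h2
  omega

theorem Slowf.sum {ι : Type*} (S : Finset ι) (f : ι → ℕ → ℕ) (h : ∀ s ∈ S, Slowf (f s)) :
    Slowf fun N => ∑ s ∈ S, f s N := by
  classical
  induction S using Finset.induction with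
  | empty =>
    simp only [Finset.sum_empty]
    exact Slowf.const 0
  | insert a S ha ih =>
    simp only [Finset.sum_insert ha]
    exact (h a (Finset.mem_insert_self _ _)).add (ih fun s hs => h s (Finset.mem_insert_of_mem hs))

/-- few active vertices on all orbit trees -/
def Few (g : TreeAut X) : Prop :=
  ∃ f : ℕ → ℕ, Slowf f ∧ ∀ (G : Subgroup (TreeAut X)) (η : ℕ → X) (n : ℕ),
    Set.ncard {w | w ∈ T G η n ∧ sec g w ≠ 1} ≤ f (T G η n).ncard

theorem exists_image_ray (h : TreeAut X) (η : ℕ → X) : ∃ ζ : ℕ → X, ∀ n, pre ζ n = h • pre η n := by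
  have h1 : ∀ n, ∃ a : X, sec h (pre η n) • [η n] = [a] := fun n =>
    List.length_eq_one_iff.1 (by rw [length_app, List.length_singleton])
  choose ζ hζ using h1
  refine ⟨ζ, fun n => ?_⟩
  induction n with
  | zero => rw [pre_zero, pre_zero, app_nil]
  | succ n ih => rw [pre_succ, pre_succ, app_append, hζ, ih]

theorem T_cj (G : Subgroup (TreeAut X)) (h : TreeAut X) {η ζ : ℕ → X}
    (hζ : ∀ n, pre ζ n = h • pre η n) (n : ℕ) : T (cj G h) ζ n = (fun w => h • w) '' T G η n := by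
  ext w
  constructor
  · rintro ⟨g, hg, rfl⟩
    refine ⟨(h⁻¹ * g * h) • pre η n, ⟨_, mem_cj.1 hg, rfl⟩, ?_⟩
    change h • (h⁻¹ * g * h) • pre η n = g • pre ζ n
    rw [mul_smul, mul_smul, smul_inv_smul, hζ]
  · rintro ⟨_, ⟨g, hg, rfl⟩, rfl⟩
    refine ⟨h * g * h⁻¹, mem_cj.2 ?_, ?_⟩
    · have h1 : h⁻¹ * (h * g * h⁻¹) * h = g := by group
      rwa [h1]
    · rw [hζ, mul_smul, mul_smul, inv_smul_smul]

theorem ncard_shift (G : Subgroup (TreeAut X)) (g h : TreeAut X) {f : ℕ → ℕ}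
    (hf : ∀ (G : Subgroup (TreeAut X)) (η : ℕ → X) (n : ℕ),
      Set.ncard {w | w ∈ T G η n ∧ sec g w ≠ 1} ≤ f (T G η n).ncard) (η : ℕ → X) (n : ℕ) :
    Set.ncard {w | w ∈ T G η n ∧ sec g (h • w) ≠ 1} ≤ f (T G η n).ncard := by
  obtain ⟨ζ, hζ⟩ := exists_image_ray h η
  have h1 := hf (cj G h) ζ n
  have hinj : Function.Injective fun w : List X => h • w := MulAction.injective h
  rw [T_cj G h hζ, Set.ncard_image_of_injective _ hinj] at h1
  refine le_trans (le_of_eq ?_) h1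
  rw [← Set.ncard_image_of_injective _ hinj]
  congr 1
  ext w
  constructor
  · rintro ⟨u, ⟨hu, hu'⟩, rfl⟩
    exact ⟨⟨u, hu, rfl⟩, hu'⟩
  · rintro ⟨⟨u, hu, rfl⟩, hu'⟩
    exact ⟨u, ⟨hu, hu'⟩, rfl⟩

theorem few_one : Few (1 : TreeAut X) := by
  refine ⟨fun _ => 0, Slowf.const 0, fun G η n => ?_⟩
  have h1 : {w | w ∈ T G η n ∧ sec (1 : TreeAut X) w ≠ 1} = ∅ := by
    ext w
    constructor
    · rintro ⟨-, h⟩
      exact h (sec_one w)
    · intro h
      exact absurd h (Set.notMem_empty w)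
  rw [h1, Set.ncard_empty]

theorem few_inv {g : TreeAut X} (h : Few g) : Few g⁻¹ := by
  obtain ⟨f, hf, hf'⟩ := h
  refine ⟨f, hf, fun G η n => ?_⟩
  have h1 := ncard_shift G g g⁻¹ hf' η n
  refine le_trans (le_of_eq ?_) h1
  congr 1
  ext w
  constructor
  · rintro ⟨h2, h3⟩
    refine ⟨h2, fun h4 => h3 ?_⟩
    rw [sec_inv', h4, inv_one]
  · rintro ⟨h2, h3⟩
    refine ⟨h2, fun h4 => h3 ?_⟩
    rw [sec_inv', inv_eq_one] at h4
    exact h4

variable [Finite X]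

theorem few_mul {g h : TreeAut X} (hg : Few g) (hh : Few h) : Few (g * h) := by
  obtain ⟨f, hf, hf'⟩ := hg
  obtain ⟨e, he, he'⟩ := hh
  refine ⟨fun N => f N + e N, hf.add he, fun G η n => ?_⟩
  have h1 : {w | w ∈ T G η n ∧ sec (g * h) w ≠ 1} ⊆
      {w | w ∈ T G η n ∧ sec g (h • w) ≠ 1} ∪ {w | w ∈ T G η n ∧ sec h w ≠ 1} := by
    rintro w ⟨hw, hw'⟩
    by_cases h2 : sec h w = 1
    · left
      refine ⟨hw, fun h3 => hw' ?_⟩
      rw [sec_mul, h2, h3, one_mul]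
    · right
      exact ⟨hw, h2⟩
  have hfin := T_finite G η n
  refine (Set.ncard_le_ncard h1 ((hfin.subset fun w hw => hw.1).union
    (hfin.subset fun w hw => hw.1))).trans ((Set.ncard_union_le _ _).trans ?_)
  exact Nat.add_le_add (ncard_shift G g h hf' η n) (he' G η n)

theorem few_closure {S : Set (TreeAut X)} (h : ∀ g ∈ S, Few g) {g : TreeAut X}
    (hg : g ∈ Subgroup.closure S) : Few g := by
  induction hg using Subgroup.closure_induction with
  | mem x hx => exact h x hx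
  | one => exact few_one
  | mul x y _ _ hx hy => exact few_mul hx hy
  | inv x _ hx => exact few_inv hx

theorem few_of_bounded {g : TreeAut X} {C : ℕ} (h : ∀ n, act g n ≤ C) : Few g := by
  refine ⟨fun _ => C, Slowf.const C, fun G η n => le_trans ?_ (h n)⟩
  refine Set.ncard_le_ncard ?_ ((finite_words n).subset fun w hw => hw.1)
  rintro w ⟨hw, hw'⟩
  exact ⟨T_len hw, hw'⟩

theorem few_of_poly {g : TreeAut X} (hfs : FiniteState g) (hp : PolyActivity g) : Few g := by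
  obtain ⟨d, hd⟩ := inP_of_poly hp
  rcases isEmpty_or_nonempty X with hX | hX
  · exact ⟨fun _ => 0, Slowf.const 0, fun G η => (hX.false (η 0)).elim⟩
  have hq : 1 ≤ Nat.card X := Nat.card_pos
  let D : ℕ := (Set.range (sec (sec g []))).ncard
  have hD : ∀ (G : Subgroup (TreeAut X)) (η : ℕ → X) (n : ℕ),
      Set.ncard {w | w ∈ T G η n ∧ sec g w ≠ 1} ≤ (Nat.card X * (1 + br G η n)) ^ D := by
    intro G η n
    have h1 := alive_aux G η hfs hd n 0 [] (T_base G η 0)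
    have h2 : br G η 0 = 0 := by
      unfold br
      simp
    rw [Nat.zero_add, h2, Nat.sub_zero] at h1
    refine le_trans (le_of_eq ?_) h1
    congr 1
    ext w
    simp
  refine ⟨fun N => (Nat.card X * (1 + Nat.log 2 N)) ^ D, ?_, fun G η n => ?_⟩
  · intro c
    obtain ⟨b₀, hb₀⟩ := slw_poly (c * (Nat.card X ^ D) ^ 2) (2 * D)
    refine ⟨2 ^ b₀, fun N hN => ?_⟩
    have hN0 : N ≠ 0 := by
      have := Nat.two_pow_pos b₀
      omega
    have h1 : b₀ ≤ Nat.log 2 N := Nat.le_log_of_pow_le one_lt_two hN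
    have h2 := hb₀ _ h1
    have h3 : 2 ^ Nat.log 2 N ≤ N := Nat.pow_log_le_self 2 hN0
    refine lt_of_lt_of_le ?_ h3
    refine lt_of_le_of_lt (le_of_eq ?_) h2
    change c * ((Nat.card X * (1 + Nat.log 2 N)) ^ D) ^ 2 = _
    rw [mul_pow (Nat.card X), pow_mul' (1 + Nat.log 2 N) 2 D]
    ring
  · refine (hD G η n).trans ?_
    have h1 := two_pow_br (T_finite G η) n
    have h2 : br G η n ≤ Nat.log 2 (T G η n).ncard := Nat.le_log_of_pow_le one_lt_two h1
    exact Nat.pow_le_pow_left (Nat.mul_le_mul_left _ (by omega)) D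

end H85.TA
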