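import Pool.Agent.H85.TB.St

/-!
# Stabilisers of positive density along a Foelner sequence
-/

set_option autoImplicit false

namespace H85.TA

variable {G Ω : Type*} [Group G] [MulAction G Ω]

open Classical in
/-- the elements of `B` for which `s` moves the point `a • y` out of `B • y` -/
noncomputable def bds (B : Finset G) (y : Ω) (s : G) : Finset G :=
  B.filter fun a => ∀ b ∈ B, b • y ≠ s • a • y

theorem mem_bds {B : Finset G} {y : Ω} {s a : G} :
    a ∈ bds B y s ↔ a ∈ B ∧ ∀ b ∈ B, b • y ≠ s • a • y := by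
  classical
  unfold bds
  simp only [Finset.mem_filter]

/-- the size of the boundary of the points `B • y` -/
noncomputable def bdy (S B : Finset G) (y : Ω) : ℕ := ∑ s ∈ S, (bds B y s).card

/-- around `y` there is a set of points, given by elements of `W`, with small boundary -/
def Thin (S : Finset G) (c : ℕ) (W : Finset G) (y : Ω) : Prop :=
  ∃ B ⊆ W, B.Nonempty ∧ (∀ a ∈ B, ∀ b ∈ B, a • y = b • y → a = b) ∧ c * (bdy S B y) ^ 2 < B.card

open Classical in
/-- the points of `F k` which are fixed by `H` -/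
noncomputable def fixd (F : ℕ → Finset Ω) (H : Subgroup G) (k : ℕ) : Finset Ω :=
  (F k).filter fun y => H ≤ MulAction.stabilizer G y

theorem mem_fixd {F : ℕ → Finset Ω} {H : Subgroup G} {k : ℕ} {y : Ω} :
    y ∈ fixd F H k ↔ y ∈ F k ∧ H ≤ MulAction.stabilizer G y := by
  classical
  rw [fixd, Finset.mem_filter]

/-- the fixed points of `H` have positive density -/
def Pos (F : ℕ → Finset Ω) (H : Subgroup G) : Prop :=
  ∃ D : ℕ, ∀ᶠ k in (Filter.hyperfilter ℕ : Filter ℕ), (F k).card ≤ D * (fixd F H k).card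

theorem ev_of_ge {p : ℕ → Prop} (h : ∃ i₀, ∀ k ≥ i₀, p k) :
    ∀ᶠ k in (Filter.hyperfilter ℕ : Filter ℕ), p k :=
  (Filter.eventually_atTop.2 h).filter_mono Nat.hyperfilter_le_atTop

theorem not_pos {F : ℕ → Finset Ω} {H : Subgroup G} (h : ¬ Pos F H) (D : ℕ) :
    ∀ᶠ k in (Filter.hyperfilter ℕ : Filter ℕ), D * (fixd F H k).card < (F k).card := by
  have h1 : ¬ ∀ᶠ k in (Filter.hyperfilter ℕ : Filter ℕ), (F k).card ≤ D * (fixd F H k).card :=
    fun h2 => h ⟨D, h2⟩
  rw [← Ultrafilter.eventually_not] at h1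
  exact h1.mono fun k hk => not_le.1 hk

open Classical in
/-- asymptotic invariance -/
def AInv (G : Type*) {Ω : Type*} [Group G] [MulAction G Ω] (F : ℕ → Finset Ω) : Prop :=
  ∀ (g : G) (m : ℕ), ∀ᶠ k in (Filter.hyperfilter ℕ : Filter ℕ),
    m * ((F k).filter fun y => g • y ∉ F k).card ≤ (F k).card

open Classical in
theorem pos_cj {F : ℕ → Finset Ω} (hinv : AInv G F) {H : Subgroup G} {D : ℕ}
    (h : ∀ᶠ k in (Filter.hyperfilter ℕ : Filter ℕ), (F k).card ≤ D * (fixd F H k).card) (g : G) :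
    ∀ᶠ k in (Filter.hyperfilter ℕ : Filter ℕ), (F k).card ≤ 2 * D * (fixd F (cj H g) k).card := by
  filter_upwards [h, hinv g (2 * D)] with k hk hk'
  have h1 : (fixd F H k).card ≤ (fixd F (cj H g) k).card +
      ((F k).filter fun y => g • y ∉ F k).card := by
    have h2 : fixd F H k ⊆ ((fixd F (cj H g) k).image fun y => g⁻¹ • y) ∪
        ((F k).filter fun y => g • y ∉ F k) := by
      intro y hy
      rw [mem_fixd] at hy
      by_cases hg : g • y ∈ F k
      · refine Finset.mem_union_left _ (Finset.mem_image.2 ⟨g • y, ?_, inv_smul_smul g y⟩)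
        rw [mem_fixd]
        refine ⟨hg, fun x hx => ?_⟩
        have h3 := hy.2 (mem_cj.1 hx)
        rw [MulAction.mem_stabilizer_iff] at h3 ⊢
        rw [mul_smul, mul_smul, inv_smul_eq_iff] at h3
        exact h3
      · exact Finset.mem_union_right _ (Finset.mem_filter.2 ⟨hy.1, hg⟩)
    refine (Finset.card_le_card h2).trans ((Finset.card_union_le _ _).trans ?_)
    exact Nat.add_le_add_right Finset.card_image_le _
  have h2 := Nat.mul_le_mul_left D h1
  have h3 : 2 * D * ((F k).filter fun y => g • y ∉ F k).card =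
      2 * (D * ((F k).filter fun y => g • y ∉ F k).card) := by ring
  rw [h3] at hk'
  have h4 : 2 * D * (fixd F (cj H g) k).card = 2 * (D * (fixd F (cj H g) k).card) := by ring
  rw [h4]
  rw [Nat.mul_add] at h2
  omega

theorem exists_max_pos (hmax : ∀ H : Subgroup G, H.FG) (F : ℕ → Finset Ω) :
    ∃ H : Subgroup G, Pos F H ∧ ∀ H' : Subgroup G, H ≤ H' → Pos F H' → H' = H := by
  have h0 : Pos F (⊥ : Subgroup G) := by
    refine ⟨1, Filter.Eventually.of_forall fun k => ?_⟩
    rw [one_mul]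
    refine Finset.card_le_card fun y hy => mem_fixd.2 ⟨hy, bot_le⟩
  have : Nonempty {H : Subgroup G // Pos F H} := ⟨⟨⊥, h0⟩⟩
  have hm : Max (⊤ : Subgroup G) := fun H _ => hmax H
  obtain ⟨⟨H, hH⟩, h1⟩ := hm.exists_maximal (fun H : {H : Subgroup G // Pos F H} => H.1)
    fun _ => le_top
  exact ⟨H, hH, fun H' h2 h3 => h1 ⟨H', h3⟩ h2⟩

theorem cj_inv (H : Subgroup G) (g : G) : cj (cj H g) g⁻¹ = H := by
  ext x
  rw [mem_cj, mem_cj]
  have h1 : g⁻¹ * (g⁻¹⁻¹ * x * g⁻¹) * g = x := by group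
  rw [h1]

theorem cj_inv' (H : Subgroup G) (g : G) : cj (cj H g⁻¹) g = H := by
  have h1 := cj_inv H g⁻¹
  rwa [inv_inv] at h1

theorem cj_mono {H H' : Subgroup G} (h : H ≤ H') (g : G) : cj H g ≤ cj H' g := fun _ hx =>
  mem_cj.2 (h (mem_cj.1 hx))

/-- the conjugates of a maximal subgroup are maximal -/
theorem max_cj {F : ℕ → Finset Ω} (hinv : AInv G F) {H : Subgroup G}
    (hH' : ∀ H' : Subgroup G, H ≤ H' → Pos F H' → H' = H) (g : G) (J : Subgroup G)
    (hJ : cj H g ≤ J) (hp : Pos F J) : J = cj H g := by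
  obtain ⟨D, hD⟩ := hp
  have h1 : cj J g⁻¹ = H := by
    refine hH' _ ?_ ⟨2 * D, pos_cj hinv hD _⟩
    have h2 := cj_mono hJ g⁻¹
    rwa [cj_inv] at h2
  rw [← h1, cj_inv']

theorem cj_eq_iff {H : Subgroup G} {a b : G} (h : cj H a = cj H b) :
    a⁻¹ * b ∈ Subgroup.normalizer (H : Set G) := by
  rw [Subgroup.mem_normalizer_iff]
  intro x
  have h1 : a⁻¹ * b * x * (a⁻¹ * b)⁻¹ = a⁻¹ * (b * x * b⁻¹) * a := by group
  rw [h1, ← mem_cj, h, mem_cj]
  have h2 : b⁻¹ * (b * x * b⁻¹) * b = x := by group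
  rw [h2]

open Classical in
/-- inclusion and exclusion -/
theorem bonferroni {ι : Type*} (P : Finset ι) (V : Finset Ω) (A : ι → Finset Ω)
    (hA : ∀ u ∈ P, A u ⊆ V) :
    ∑ u ∈ P, (A u).card ≤ V.card + ∑ p ∈ P.offDiag, (A p.1 ∩ A p.2).card := by
  have h1 : ∑ u ∈ P, (A u).card = ∑ y ∈ V, (P.filter fun u => y ∈ A u).card := by
    have h2 : ∀ u ∈ P, (A u).card = (V.filter fun y => y ∈ A u).card := by
      intro u hu
      congr 1
      ext y
      rw [Finset.mem_filter]
      exact ⟨fun h => ⟨hA u hu h, h⟩, fun h => h.2⟩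
    rw [Finset.sum_congr rfl h2]
    exact Finset.sum_card_bipartiteAbove_eq_sum_card_bipartiteBelow _
  have h3 : ∑ p ∈ P.offDiag, (A p.1 ∩ A p.2).card =
      ∑ y ∈ V, (P.offDiag.filter fun p => y ∈ A p.1 ∩ A p.2).card := by
    have h2 : ∀ p ∈ P.offDiag, (A p.1 ∩ A p.2).card = (V.filter fun y => y ∈ A p.1 ∩ A p.2).card := by
      intro p hp
      congr 1
      ext y
      rw [Finset.mem_filter]
      refine ⟨fun h => ⟨hA p.1 (Finset.mem_offDiag.1 hp).1 (Finset.mem_inter.1 h).1, h⟩, fun h => h.2⟩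
    rw [Finset.sum_congr rfl h2]
    exact Finset.sum_card_bipartiteAbove_eq_sum_card_bipartiteBelow _
  have h4 : ∀ y ∈ V, (P.filter fun u => y ∈ A u).card ≤ 1 +
      (P.offDiag.filter fun p => y ∈ A p.1 ∩ A p.2).card := by
    intro y _
    have h5 : (P.offDiag.filter fun p => y ∈ A p.1 ∩ A p.2) =
        (P.filter fun u => y ∈ A u).offDiag := by
      ext p
      simp only [Finset.mem_filter, Finset.mem_offDiag, Finset.mem_inter]
      tauto
    rw [h5, Finset.offDiag_card]
    rcases Nat.eq_zero_or_pos (P.filter fun u => y ∈ A u).card with h6 | h6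
    · omega
    · rcases Nat.lt_or_ge (P.filter fun u => y ∈ A u).card 2 with h7 | h7
      · omega
      · have h8 : 2 * (P.filter fun u => y ∈ A u).card ≤
            (P.filter fun u => y ∈ A u).card * (P.filter fun u => y ∈ A u).card :=
          Nat.mul_le_mul_right _ h7
        omega
  rw [h1, h3]
  calc ∑ y ∈ V, (P.filter fun u => y ∈ A u).card ≤ ∑ y ∈ V, (1 +
      (P.offDiag.filter fun p => y ∈ A p.1 ∩ A p.2).card) := Finset.sum_le_sum h4
    _ = _ := by rw [Finset.sum_add_distrib, Finset.sum_const, smul_eq_mul, mul_one]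

open Classical in
theorem normalizer_finiteIndex {F : ℕ → Finset Ω} (hne : ∀ k, (F k).Nonempty) (hinv : AInv G F)
    {H : Subgroup G} (hH : Pos F H)
    (hH' : ∀ H' : Subgroup G, H ≤ H' → Pos F H' → H' = H) :
    (Subgroup.normalizer (H : Set G)).FiniteIndex := by
  obtain ⟨D, hD⟩ := hH
  by_contra hcon
  have hinf : Infinite (G ⧸ Subgroup.normalizer (H : Set G)) := by
    by_contra hfin
    rw [not_infinite_iff_finite] at hfin
    exact hcon (Subgroup.finiteIndex_of_finite_quotient)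
  obtain ⟨P, hP⟩ := Infinite.exists_subset_card_eq (G ⧸ Subgroup.normalizer (H : Set G)) (2 * D + 2)
  let K : G ⧸ Subgroup.normalizer (H : Set G) → Subgroup G := fun u => cj H u.out
  have hK : ∀ u v, K u = K v → u = v := by
    intro u v huv
    have h1 := cj_eq_iff huv
    rw [← QuotientGroup.eq, QuotientGroup.out_eq', QuotientGroup.out_eq'] at h1
    exact h1
  have hnp : ∀ u v, u ≠ v → ¬ Pos F (K u ⊔ K v) := by
    intro u v huv hp
    have h1 := max_cj hinv hH' u.out (K u ⊔ K v) le_sup_left hp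
    have h2 := max_cj hinv hH' v.out (K u ⊔ K v) le_sup_right hp
    exact huv (hK u v (h1.symm.trans h2))
  have h1 : ∀ᶠ k in (Filter.hyperfilter ℕ : Filter ℕ), ∀ u ∈ P,
      (F k).card ≤ 2 * D * (fixd F (K u) k).card :=
    (Filter.eventually_all_finset P).2 fun u _ => pos_cj hinv hD u.out
  have h2 : ∀ᶠ k in (Filter.hyperfilter ℕ : Filter ℕ), ∀ p ∈ P.offDiag,
      2 * D * P.offDiag.card * (fixd F (K p.1 ⊔ K p.2) k).card < (F k).card := by
    refine (Filter.eventually_all_finset P.offDiag).2 fun p hp => ?_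
    exact not_pos (hnp p.1 p.2 (Finset.mem_offDiag.1 hp).2.2) _
  obtain ⟨k, hk1, hk2⟩ := (h1.and h2).exists
  have h3 := bonferroni P (F k) (fun u => fixd F (K u) k) fun u _ => Finset.filter_subset _ _
  have h4 : ∀ p ∈ P.offDiag, fixd F (K p.1) k ∩ fixd F (K p.2) k = fixd F (K p.1 ⊔ K p.2) k := by
    intro p _
    ext y
    rw [Finset.mem_inter, mem_fixd, mem_fixd, mem_fixd, sup_le_iff]
    tauto
  have h4' : ∑ p ∈ P.offDiag, (fixd F (K p.1) k ∩ fixd F (K p.2) k).card =
      ∑ p ∈ P.offDiag, (fixd F (K p.1 ⊔ K p.2) k).card :=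
    Finset.sum_congr rfl fun p hp => by rw [h4 p hp]
  rw [h4'] at h3
  have h5 : (2 * D + 2) * (F k).card ≤ 2 * D * ∑ u ∈ P, (fixd F (K u) k).card := by
    rw [← hP, ← smul_eq_mul, ← Finset.sum_const, Finset.mul_sum]
    exact Finset.sum_le_sum hk1
  have hFpos : 0 < (F k).card := Finset.card_pos.2 (hne k)
  have h6 : 2 * D * ∑ p ∈ P.offDiag, (fixd F (K p.1 ⊔ K p.2) k).card ≤ (F k).card := by
    rcases Nat.eq_zero_or_pos P.offDiag.card with h7 | h7
    · rw [Finset.card_eq_zero] at h7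
      rw [h7, Finset.sum_empty, mul_zero]
      exact Nat.zero_le _
    · have h8 : P.offDiag.card * (2 * D * ∑ p ∈ P.offDiag, (fixd F (K p.1 ⊔ K p.2) k).card) ≤
          P.offDiag.card * (F k).card := by
        calc P.offDiag.card * (2 * D * ∑ p ∈ P.offDiag, (fixd F (K p.1 ⊔ K p.2) k).card)
            = ∑ p ∈ P.offDiag, 2 * D * P.offDiag.card * (fixd F (K p.1 ⊔ K p.2) k).card := by
              rw [← Finset.mul_sum]
              ring
          _ ≤ ∑ _p ∈ P.offDiag, (F k).card := Finset.sum_le_sum fun p hp => (hk2 p hp).le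
          _ = P.offDiag.card * (F k).card := by rw [Finset.sum_const, smul_eq_mul]
      exact Nat.le_of_mul_le_mul_left h8 h7
  have h9 := Nat.mul_le_mul_left (2 * D) h3
  rw [Nat.mul_add] at h9
  have h10 : (2 * D + 2) * (F k).card = 2 * D * (F k).card + 2 * (F k).card := by ring
  omega

open Classical in
theorem thinSets_of_pos {F : ℕ → Finset Ω} (hne : ∀ k, (F k).Nonempty)
    {H : Subgroup G} (hH : Pos F H)
    (hH' : ∀ H' : Subgroup G, H ≤ H' → Pos F H' → H' = H)
    (hthin : ∀ (S : Finset G) (c m : ℕ), ∃ W : Finset G,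
      ∀ᶠ k in (Filter.hyperfilter ℕ : Filter ℕ),
        m * ((F k).filter fun y => ¬ Thin S c W y).card ≤ (F k).card) :
    ThinSets H := by
  intro S c
  obtain ⟨D, hD⟩ := hH
  obtain ⟨W, hW⟩ := hthin S c (3 * D)
  let E : Finset G := (((insert 1 S) ×ˢ W ×ˢ W).image
    fun p => p.2.2⁻¹ * (p.1 * p.2.1)).filter fun e => e ∉ H
  have hE : ∀ e ∈ E, ¬ Pos F (H ⊔ Subgroup.zpowers e) := by
    intro e he hp
    have h1 := hH' _ le_sup_left hp
    have h2 : e ∈ H ⊔ Subgroup.zpowers e := Subgroup.mem_sup_right (Subgroup.mem_zpowers e)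
    rw [h1] at h2
    exact (Finset.mem_filter.1 he).2 h2
  have h2 : ∀ᶠ k in (Filter.hyperfilter ℕ : Filter ℕ), ∀ e ∈ E,
      3 * D * E.card * (fixd F (H ⊔ Subgroup.zpowers e) k).card < (F k).card :=
    (Filter.eventually_all_finset E).2 fun e he => not_pos (hE e he) _
  obtain ⟨k, ⟨hk1, hk2⟩, hk3⟩ := ((hD.and hW).and h2).exists
  have hFpos : 0 < (F k).card := Finset.card_pos.2 (hne k)
  -- a good point
  have h3 : ∃ y ∈ fixd F H k, Thin S c W y ∧ ∀ e ∈ E, e • y ≠ y := by
    by_contra hcon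
    push Not at hcon
    have h4 : fixd F H k ⊆ ((F k).filter fun y => ¬ Thin S c W y) ∪
        E.biUnion fun e => fixd F (H ⊔ Subgroup.zpowers e) k := by
      intro y hy
      have hy' := mem_fixd.1 hy
      by_cases hty : Thin S c W y
      · obtain ⟨e, he, hey⟩ := hcon y hy hty
        refine Finset.mem_union_right _ (Finset.mem_biUnion.2 ⟨e, he, mem_fixd.2 ⟨hy'.1, ?_⟩⟩)
        refine sup_le hy'.2 ?_
        rw [Subgroup.zpowers_le]
        exact hey
      · exact Finset.mem_union_left _ (Finset.mem_filter.2 ⟨hy'.1, hty⟩)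
    have h5 : (fixd F H k).card ≤ ((F k).filter fun y => ¬ Thin S c W y).card +
        ∑ e ∈ E, (fixd F (H ⊔ Subgroup.zpowers e) k).card :=
      (Finset.card_le_card h4).trans ((Finset.card_union_le _ _).trans
        (Nat.add_le_add_left Finset.card_biUnion_le _))
    have h6 : 3 * D * ∑ e ∈ E, (fixd F (H ⊔ Subgroup.zpowers e) k).card ≤ (F k).card := by
      rcases Nat.eq_zero_or_pos E.card with h7 | h7
      · rw [Finset.card_eq_zero] at h7
        rw [h7, Finset.sum_empty, mul_zero]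
        exact Nat.zero_le _
      · have h8 : E.card * (3 * D * ∑ e ∈ E, (fixd F (H ⊔ Subgroup.zpowers e) k).card) ≤
            E.card * (F k).card := by
          calc E.card * (3 * D * ∑ e ∈ E, (fixd F (H ⊔ Subgroup.zpowers e) k).card)
              = ∑ e ∈ E, 3 * D * E.card * (fixd F (H ⊔ Subgroup.zpowers e) k).card := by
                rw [← Finset.mul_sum]
                ring
            _ ≤ ∑ _e ∈ E, (F k).card := Finset.sum_le_sum fun e he => (hk3 e he).le
            _ = E.card * (F k).card := by rw [Finset.sum_const, smul_eq_mul]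
        exact Nat.le_of_mul_le_mul_left h8 h7
    have h9 := Nat.mul_le_mul_left (3 * D) h5
    rw [Nat.mul_add] at h9
    have h10 : 3 * D * (fixd F H k).card = 3 * (D * (fixd F H k).card) := by ring
    omega
  obtain ⟨y, hy, ⟨B, hBW, hB1, hB2, hB3⟩, hyE⟩ := h3
  have hy' := mem_fixd.1 hy
  have hrel : ∀ s ∈ insert 1 S, ∀ a ∈ B, ∀ b ∈ B, (b⁻¹ * (s * a) ∈ H ↔ b • y = s • a • y) := by
    intro s hs a ha b hb
    have h4 : b • y = s • a • y ↔ (b⁻¹ * (s * a)) • y = y := by
      rw [mul_smul, mul_smul, inv_smul_eq_iff]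
      exact eq_comm
    rw [h4]
    constructor
    · intro h5
      exact hy'.2 h5
    · intro h5
      by_contra h6
      refine hyE (b⁻¹ * (s * a)) ?_ h5
      refine Finset.mem_filter.2 ⟨Finset.mem_image.2 ⟨(s, a, b), ?_, rfl⟩, h6⟩
      exact Finset.mem_product.2 ⟨hs, Finset.mem_product.2 ⟨hBW ha, hBW hb⟩⟩
  refine ⟨B, hB1, fun a ha b hb hab => ?_, ?_⟩
  · have h4 := (hrel 1 (Finset.mem_insert_self _ _) b hb a ha).1 (by rwa [one_mul])
    rw [one_smul] at h4
    exact hB2 a ha b hb h4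
  · have h4 : bdm H S B = bdy S B y := by
      rw [bdm_eq, bdy]
      refine Finset.sum_congr rfl fun s hs => ?_
      congr 1
      ext a
      rw [mem_bds]
      simp only [Finset.mem_filter]
      constructor
      · rintro ⟨ha, h5⟩
        exact ⟨ha, fun b hb h6 => h5 b hb ((hrel s (Finset.mem_insert_of_mem hs) a ha b hb).2 h6)⟩
      · rintro ⟨ha, h5⟩
        exact ⟨ha, fun b hb h6 => h5 b hb ((hrel s (Finset.mem_insert_of_mem hs) a ha b hb).1 h6)⟩
    rw [h4]
    exact hB3

end H85.TA
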