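import Pool.Agent.H85.TB.Xa
import Pool.Agent.H85.TA.Main

/-!
# Groups with the maximum condition and actions of subquadratic growth
-/

set_option autoImplicit false

namespace H85.TA

theorem virtuallyAbelian_of_top {G : Type*} [Group G] (h : VA (⊤ : Subgroup G) ⊥) :
    VirtuallyAbelian G := by
  obtain ⟨A, -, hi, hc⟩ := h
  rw [Subgroup.relIndex_top_right] at hi
  refine ⟨A, ⟨hi⟩, fun a ha b hb => ?_⟩
  have h1 := hc a ha b hb
  rwa [Subgroup.mem_bot, mul_inv_eq_one, mul_inv_eq_iff_eq_mul] at h1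

/-- THEOREM X -/
theorem mainX (G : Type*) [Group G] (Ω : Type*) [MulAction G Ω] [FaithfulSMul G Ω] (S : Finset G)
    (hS : Subgroup.closure (S : Set G) = ⊤)
    (hgrowth : ∀ C : ℕ, ∃ r ≥ 1, ∀ x : Ω, C * (sball S r x).ncard ≤ r ^ 2)
    (hmax : ∀ H : Subgroup G, H.FG) : VirtuallyAbelian G ∧ AlmostPolycyclic G := by
  have h := virtuallyAbelian_of_top (va_of_growth hmax S hS hgrowth)
  exact ⟨h, almostPolycyclic_of_virtuallyAbelian hmax h⟩

end H85.TA
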