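import Pool.Agent.H85.TB.Vt
import Pool.Agent.H85.TB.Xm

/-!
# Groups with few active vertices on all orbit trees
-/

set_option autoImplicit false

namespace H85.TA

open Pointwise

variable {X : Type*}

open Classical in
/-- the vertices of level `n` above a set of vertices of level `j` -/
theorem below_count {G : Subgroup (TreeAut X)} {η : ℕ → X} {j n : ℕ} (hjn : j ≤ n)
    {V W : Finset (List X)} (hV : ∀ w, w ∈ V ↔ w ∈ T G η j) (hW : ∀ w, w ∈ W ↔ w ∈ T G η n)
    (p : List X → Prop) (m : ℕ) (h : m * (V.filter p).card ≤ V.card) :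
    m * (W.filter fun y => p (y.take j)).card ≤ W.card := by
  have hVs : T G η j = (V : Set (List X)) := by
    ext w
    rw [Finset.mem_coe, hV]
  have hWs : T G η n = (W : Set (List X)) := by
    ext w
    rw [Finset.mem_coe, hW]
  have hWf : (T G η n).Finite := by
    rw [hWs]
    exact Finset.finite_toSet W
  have hVc : (T G η j).ncard = V.card := by rw [hVs, Set.ncard_coe_finset]
  have hWc : (T G η n).ncard = W.card := by rw [hWs, Set.ncard_coe_finset]
  have hfib : ∀ v ∈ V, Set.ncard {w | w ∈ T G η n ∧ v <+: w} =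
      (W.filter fun y => y.take j = v).card := by
    intro v hv
    rw [← Set.ncard_coe_finset]
    congr 1
    ext w
    simp only [Set.mem_ofPred_eq, Finset.coe_filter, hW]
    constructor
    · rintro ⟨h1, h2⟩
      exact ⟨h1, (prefix_iff_take (T_len ((hV v).1 hv)) (T_len h1) hjn).1 h2⟩
    · rintro ⟨h1, h2⟩
      exact ⟨h1, (prefix_iff_take (T_len ((hV v).1 hv)) (T_len h1) hjn).2 h2⟩
  set M := (W.filter fun y => y.take j = pre η j).card with hM
  have hpre : pre η j ∈ V := (hV _).2 (T_base G η j)
  have hVpos : 0 < V.card := Finset.card_pos.2 ⟨_, hpre⟩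
  have hWV : W.card = V.card * M := by
    have h1 := card_mul hjn hWf (T_base G η j)
    rw [hVc, hWc, hfib _ hpre] at h1
    exact h1
  have hfib' : ∀ v ∈ V, (W.filter fun y => y.take j = v).card = M := by
    intro v hv
    have h1 := card_mul hjn hWf ((hV v).1 hv)
    rw [hVc, hWc, hfib _ hv, hWV] at h1
    exact (Nat.eq_of_mul_eq_mul_left hVpos h1).symm
  have h2 : (W.filter fun y => p (y.take j)).card = (V.filter p).card * M := by
    rw [Finset.card_eq_sum_card_fiberwise (f := fun y : List X => y.take j)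
      (s := W.filter fun y => p (y.take j)) (t := V.filter p) (by
        intro w hw
        have h3 := Finset.mem_filter.1 (Finset.mem_coe.1 hw)
        exact Finset.mem_coe.2 (Finset.mem_filter.2
          ⟨(hV _).2 (T_take hjn ((hW _).1 h3.1)), h3.2⟩)), ← smul_eq_mul, ← Finset.sum_const]
    refine Finset.sum_congr rfl fun v hv => ?_
    obtain ⟨hv1, hv2⟩ := Finset.mem_filter.1 hv
    rw [← hfib' v hv1]
    congr 1
    ext w
    simp only [Finset.mem_filter]
    constructor
    · rintro ⟨⟨h3, -⟩, h4⟩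
      exact ⟨h3, h4⟩
    · rintro ⟨h3, h4⟩
      exact ⟨⟨h3, by rwa [h4]⟩, h4⟩
  rw [h2, hWV, ← Nat.mul_assoc]
  exact Nat.mul_le_mul_right M h

variable [Finite X]

theorem T_succ_card (G : Subgroup (TreeAut X)) (η : ℕ → X) (n : ℕ) :
    (T G η (n + 1)).ncard ≤ Nat.card X * (T G η n).ncard := by
  have hfin := T_finite G η n
  have h1 : T G η (n + 1) ⊆ (fun p : X × List X => p.2 ++ [p.1]) '' (Set.univ ×ˢ T G η n) := by
    intro w hw
    have hlen := T_len hw
    have h2 := T_take (Nat.le_succ n) hw
    have h3 : (w.drop n).length = 1 := by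
      rw [List.length_drop]
      omega
    obtain ⟨a, ha⟩ := List.length_eq_one_iff.1 h3
    refine ⟨(a, w.take n), ⟨Set.mem_univ _, h2⟩, ?_⟩
    change w.take n ++ [a] = w
    rw [← ha, List.take_append_drop]
  have hf : (Set.univ ×ˢ T G η n : Set (X × List X)).Finite := Set.finite_univ.prod hfin
  refine (Set.ncard_le_ncard h1 (hf.image _)).trans ((Set.ncard_image_le hf).trans (le_of_eq ?_))
  rw [Set.ncard_prod, Set.ncard_univ]

open Classical in
theorem thin_levels (G : Subgroup (TreeAut X)) (hfew : ∀ g ∈ G, Few g) (S : Finset G) (c m : ℕ) :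
    ∃ W : Finset G, ∀ (η : ℕ → X) (n : ℕ) (V : Finset (List X)), (∀ w, w ∈ V ↔ w ∈ T G η n) →
      m * (V.filter fun y => ¬ Thin S c W y).card ≤ V.card := by
  have h1 : ∀ s : G, ∃ f : ℕ → ℕ, Slowf f ∧ ∀ (G' : Subgroup (TreeAut X)) (η : ℕ → X) (n : ℕ),
      Set.ncard {w | w ∈ T G' η n ∧ sec (s : TreeAut X) w ≠ 1} ≤ f (T G' η n).ncard :=
    fun s => hfew s s.2
  choose f hf1 hf2 using h1
  obtain ⟨L, hL⟩ := Slowf.sum S f (fun s _ => hf1 s) (m * c)
  set L' := Nat.card X * L + L + 1 with hL'
  refine ⟨bpow (bl S) L', fun η n V hV => ?_⟩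
  have hVs : ∀ j, ∃ V : Finset (List X), ∀ w, w ∈ V ↔ w ∈ T G η j := fun j =>
    ⟨(T_finite G η j).toFinset, fun w => Set.Finite.mem_toFinset _⟩
  have hcardV : ∀ (j : ℕ) (V : Finset (List X)), (∀ w, w ∈ V ↔ w ∈ T G η j) →
      (T G η j).ncard = V.card := by
    intro j V hV
    rw [← Set.ncard_coe_finset]
    congr 1
    ext w
    rw [Finset.mem_coe, hV]
  by_cases hn : (T G η n).ncard < L
  · -- a small orbit
    have h2 : (V.filter fun y => ¬ Thin S c (bpow (bl S) L') y) = ∅ := by
      rw [Finset.filter_false_of_mem]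
      intro y hy
      rw [not_not]
      refine thin_of_small S c L' (V := V) ?_ ?_ hy
      · intro s _ u hu _
        exact (hV _).2 (T_smul s.2 ((hV u).1 hu))
      · rw [← hcardV n V hV]
        omega
    rw [h2, Finset.card_empty, mul_zero]
    exact Nat.zero_le _
  · rw [not_lt] at hn
    have hex : ∃ j, L ≤ (T G η j).ncard := ⟨n, hn⟩
    set j := Nat.find hex with hj
    have hj1 : L ≤ (T G η j).ncard := Nat.find_spec hex
    have hjn : j ≤ n := Nat.find_min' hex hn
    have hj2 : (T G η j).ncard ≤ L' := by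
      rcases Nat.eq_zero_or_pos j with h0 | h0
      · have h3 : (T G η 0).ncard ≤ 1 := by
          have h4 : T G η 0 ⊆ {[]} := fun w hw => List.length_eq_zero_iff.1 (T_len hw)
          refine (Set.ncard_le_ncard h4 (Set.finite_singleton _)).trans ?_
          rw [Set.ncard_singleton]
        rw [h0]
        omega
      · obtain ⟨i, hi⟩ := Nat.exists_eq_succ_of_ne_zero h0.ne'
        have h3 : ¬ L ≤ (T G η i).ncard := Nat.find_min hex (by omega)
        rw [hi]
        have h4 := T_succ_card G η i
        have h5 : Nat.card X * (T G η i).ncard ≤ Nat.card X * L :=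
          Nat.mul_le_mul_left _ (by omega)
        change (T G η (i + 1)).ncard ≤ L'
        omega
    obtain ⟨U, hU⟩ := hVs j
    have hUc := hcardV j U hU
    let ok : G → List X → Prop := fun s w => sec (s : TreeAut X) w = 1
    have hcl : Closd (bl S) ok U := fun s _ u hu _ => (hU _).2 (T_smul s.2 ((hU u).1 hu))
    have hUL : U.card ≤ L' := by rw [← hUc]; exact hj2
    have hsym : ∀ s ∈ bl S, ∀ v, ok s v → s⁻¹ ∈ bl S ∧ ok s⁻¹ (s • v) := by
      intro s hs v hok
      refine ⟨?_, ?_⟩
      · rw [mem_bl] at hs ⊢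
        rcases hs with h | h | h
        · left
          rw [h, inv_one]
        · right
          right
          rwa [inv_inv]
        · right
          left
          exact h
      · change sec (s : TreeAut X)⁻¹ ((s : TreeAut X) • v) = 1
        have h3 : sec (s : TreeAut X) v = 1 := hok
        rw [sec_inv, h3, inv_one]
    let C : List X → Finset (List X) := fun w => Rch (bl S) ok w L'
    let ac : G → List X → Prop := fun s u => sec (s : TreeAut X) u ≠ 1
    obtain ⟨bad, hbad⟩ : ∃ bad : List X → Prop, ∀ w, bad w ↔ (C w).card ≤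
        c * (cnt S ac (C w)) ^ 2 := ⟨_, fun w => Iff.rfl⟩
    have h3 : (U.filter bad).card ≤ c * (cnt S ac U) ^ 2 :=
      class_count U S ac c C (fun w _ => rch_self w L') (fun w hw => rch_sub hw hcl L')
        (fun w hw u hu => rch_eq hw hcl hUL hsym hu) bad hbad
    have h4 : cnt S ac U ≤ ∑ s ∈ S, f s (T G η j).ncard := by
      rw [cnt]
      refine Finset.sum_le_sum fun s _ => ?_
      refine le_trans (le_of_eq ?_) (hf2 s G η j)
      rw [← Set.ncard_coe_finset]
      congr 1
      ext w
      simp only [Set.mem_ofPred_eq, Finset.coe_filter, hU, ac]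
    have h5 : m * (U.filter bad).card ≤ U.card := by
      have h6 := hL (T G η j).ncard hj1
      calc m * (U.filter bad).card
          ≤ m * (c * (cnt S ac U) ^ 2) := Nat.mul_le_mul_left m h3
        _ ≤ m * (c * (∑ s ∈ S, f s (T G η j).ncard) ^ 2) :=
            Nat.mul_le_mul_left m (Nat.mul_le_mul_left c (Nat.pow_le_pow_left h4 2))
        _ = m * c * (∑ s ∈ S, f s (T G η j).ncard) ^ 2 := by ring
        _ ≤ (T G η j).ncard := h6.le
        _ = U.card := hUc
    have h7 := below_count hjn hU hV bad m h5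
    refine le_trans (Nat.mul_le_mul_left m (Finset.card_le_card ?_)) h7
    intro y hy
    simp only [Finset.mem_filter] at hy ⊢
    refine ⟨hy.1, ?_⟩
    by_contra hgood
    rw [hbad] at hgood
    refine hy.2 ?_
    have h8 := thin_of_class G S c L' hcl hUL
      ((hU _).2 (T_take hjn ((hV y).1 hy.1))) hgood (v := y.drop j)
    rwa [List.take_append_drop] at h8

open Classical in
theorem va_of_few (G : Subgroup (TreeAut X)) (hfew : ∀ g ∈ G, Few g)
    (hmax : ∀ H : Subgroup G, H.FG) : VA (⊤ : Subgroup G) ⊥ := by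
  rcases isEmpty_or_nonempty X with hX | hX
  · have h0 : ∀ g : G, g = 1 := fun g => Subtype.ext (ext_app fun w => by
      have h1 : ∀ u : List X, u = [] := fun u => by
        cases u with
        | nil => rfl
        | cons x _ => exact (hX.false x).elim
      rw [h1 ((g : TreeAut X) • w), h1 (((1 : G) : TreeAut X) • w)])
    have : Finite G := ⟨⟨fun g => (0 : Fin 1), fun _ => 1, fun g => (h0 g).symm,
      fun i => Subsingleton.elim _ _⟩⟩
    exact VA.of_finite (Set.toFinite _)
  have hfaith : FaithfulSMul G (List X) := ⟨fun {a b} h => Subtype.ext (ext_app h)⟩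
  have horb : ∀ x : List X, (MulAction.orbit G x).Finite := by
    intro x
    refine (finite_words x.length).subset ?_
    rintro _ ⟨g, rfl⟩
    exact length_app (g : TreeAut X) x
  refine va_of_foelner (Ω := List X) hmax (fun _ x => (horb x).toFinset) ?_ ?_ ?_ ?_
  · intro i x
    exact ⟨x, (horb x).mem_toFinset.2 (MulAction.mem_orbit_self x)⟩
  · intro i x y hy
    exact (horb x).mem_toFinset.1 hy
  · intro g m
    refine ⟨0, fun i _ x => ?_⟩
    have h0 : ∀ y ∈ (horb x).toFinset, g • y ∈ (horb x).toFinset := by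
      intro y hy
      rw [Set.Finite.mem_toFinset] at hy ⊢
      obtain ⟨h, rfl⟩ := hy
      exact ⟨g * h, mul_smul _ _ _⟩
    refine le_trans (le_of_eq ?_) (Nat.zero_le _)
    rw [mul_eq_zero]
    right
    rw [Finset.card_eq_zero, Finset.eq_empty_iff_forall_notMem]
    intro y hy
    simp only [Finset.mem_filter] at hy
    exact hy.2 (h0 y hy.1)
  · intro S c m
    obtain ⟨W, hW⟩ := thin_levels G hfew S c m
    refine ⟨W, 0, fun i _ x => ?_⟩
    obtain ⟨η, hη⟩ := exists_ray x
    refine hW η x.length _ fun w => ?_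
    rw [Set.Finite.mem_toFinset]
    constructor
    · rintro ⟨g, rfl⟩
      exact ⟨g, g.2, by rw [hη]; rfl⟩
    · rintro ⟨g, hg, h1⟩
      refine ⟨⟨g, hg⟩, ?_⟩
      rw [hη] at h1
      exact h1

/-- THEOREM V -/
theorem mainV (X : Type*) [Finite X] (G : Subgroup (TreeAut X))
    (hG : G ≤ Subgroup.closure {s : TreeAut X | (∃ C : ℕ, ∀ n, act s n ≤ C) ∨
      (FiniteState s ∧ PolyActivity s)})
    (hmax : ∀ H : Subgroup G, H.FG) : VirtuallyAbelian G ∧ AlmostPolycyclic G := by
  have hfew : ∀ g ∈ G, Few g := by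
    intro g hg
    refine few_closure ?_ (hG hg)
    rintro s (⟨C, hC⟩ | ⟨h1, h2⟩)
    · exact few_of_bounded hC
    · exact few_of_poly h1 h2
  have h := virtuallyAbelian_of_top (va_of_few G hfew hmax)
  exact ⟨h, almostPolycyclic_of_virtuallyAbelian hmax h⟩

end H85.TA
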