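import Pool.Agent.H85.TB.Few
import Pool.Agent.H85.TB.Clo

/-!
# Thin sets in the levels of a tree
-/

set_option autoImplicit false

namespace H85.TA

open Pointwise

open Classical in
theorem sum_fib {Ω ι : Type*} (A : Finset Ω) (I : Finset ι) (C : Ω → ι) :
    ∑ D ∈ I, (A.filter fun u => C u = D).card ≤ A.card := by
  have h1 : (A.filter fun u => C u ∈ I).card = ∑ D ∈ I, (A.filter fun u => C u = D).card := by
    rw [Finset.card_eq_sum_card_fiberwise (f := C) (s := A.filter fun u => C u ∈ I) (t := I)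
      (by
        intro w hw
        exact (Finset.mem_filter.1 (Finset.mem_coe.1 hw)).2)]
    refine Finset.sum_congr rfl fun D hD => ?_
    congr 1
    ext u
    simp only [Finset.mem_filter]
    constructor
    · rintro ⟨⟨h1, -⟩, h2⟩
      exact ⟨h1, h2⟩
    · rintro ⟨h1, h2⟩
      exact ⟨⟨h1, by rwa [h2]⟩, h2⟩
  rw [← h1]
  exact Finset.card_filter_le _ _

open Classical in
/-- the number of the active pairs -/
noncomputable def cnt {Ω σ : Type*} (S : Finset σ) (act : σ → Ω → Prop) (D : Finset Ω) : ℕ :=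
  ∑ s ∈ S, (D.filter fun u => act s u).card

open Classical in
/-- few points lie in classes with large boundary -/
theorem class_count {Ω σ : Type*} (V : Finset Ω) (S : Finset σ) (act : σ → Ω → Prop) (c : ℕ)
    (C : Ω → Finset Ω) (hC1 : ∀ w ∈ V, w ∈ C w) (hC2 : ∀ w ∈ V, C w ⊆ V)
    (hC3 : ∀ w ∈ V, ∀ u ∈ C w, C u = C w) (bad : Ω → Prop)
    (hbad : ∀ w, bad w ↔ (C w).card ≤ c * (cnt S act (C w)) ^ 2) :
    (V.filter bad).card ≤ c * (cnt S act V) ^ 2 := by
  let β : Finset Ω → ℕ := fun D => cnt S act D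
  set Bd := V.filter bad with hBd
  have hBdV : ∀ w ∈ Bd, w ∈ V := fun w hw => (Finset.mem_filter.1 hw).1
  have h1 : Bd.card ≤ ∑ D ∈ Bd.image C, c * (β D) ^ 2 := by
    rw [Finset.card_eq_sum_card_image C Bd]
    refine Finset.sum_le_sum fun D hD => ?_
    obtain ⟨w, hw, rfl⟩ := Finset.mem_image.1 hD
    refine le_trans (Finset.card_le_card ?_) ((hbad w).1 (Finset.mem_filter.1 hw).2)
    intro u hu
    simp only [Finset.mem_filter] at hu
    obtain ⟨h2, h3⟩ := hu
    rw [← h3]
    exact hC1 u (hBdV u h2)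
  have h2 : ∑ D ∈ Bd.image C, β D ≤ cnt S act V := by
    simp only [β, cnt]
    rw [Finset.sum_comm]
    refine Finset.sum_le_sum fun s _ => ?_
    refine le_trans (Finset.sum_le_sum fun D hD => ?_) (sum_fib _ (Bd.image C) C)
    obtain ⟨w, hw, rfl⟩ := Finset.mem_image.1 hD
    refine Finset.card_le_card fun u hu => ?_
    simp only [Finset.mem_filter] at hu ⊢
    obtain ⟨h2, h3⟩ := hu
    exact ⟨⟨hC2 w (hBdV w hw) h2, h3⟩, hC3 w (hBdV w hw) u h2⟩
  calc Bd.card ≤ ∑ D ∈ Bd.image C, c * (β D) ^ 2 := h1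
    _ = c * ∑ D ∈ Bd.image C, (β D) ^ 2 := by rw [Finset.mul_sum]
    _ ≤ c * (∑ D ∈ Bd.image C, β D) ^ 2 :=
        Nat.mul_le_mul_left c (Finset.sum_sq_le_sq_sum_of_nonneg fun _ _ => Nat.zero_le _)
    _ ≤ _ := Nat.mul_le_mul_left c (Nat.pow_le_pow_left h2 2)

variable {X : Type*}

open Classical in
/-- thin sets from classes of inactive moves -/
theorem thin_of_class (G : Subgroup (TreeAut X)) (S : Finset G) (c L : ℕ) {V : Finset (List X)}
    (hV : Closd (bl S) (fun (s : G) w => sec (s : TreeAut X) w = 1) V) (hL : V.card ≤ L)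
    {w v : List X} (hw : w ∈ V)
    (hgood : ¬ (Rch (bl S) (fun (s : G) w => sec (s : TreeAut X) w = 1) w L).card ≤
      c * (cnt S (fun (s : G) u => sec (s : TreeAut X) u ≠ 1)
        (Rch (bl S) (fun (s : G) w => sec (s : TreeAut X) w = 1) w L)) ^ 2) :
    Thin S c (bpow (bl S) L) (w ++ v) := by
  set C := Rch (bl S) (fun (s : G) w => sec (s : TreeAut X) w = 1) w L with hC
  have hcl : Closd (bl S) (fun (s : G) w => sec (s : TreeAut X) w = 1) C := rch_closd hw hV hL
  have h1 : ∀ u ∈ C, ∃ a ∈ bpow (bl S) L, a • w = u ∧ sec (a : TreeAut X) w = 1 := by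
    intro u hu
    refine rch_elem (P := fun a : G => sec (a : TreeAut X) w = 1) ?_ ?_ hu
    · exact sec_one w
    · intro g s hg _ hok
      change sec ((s : TreeAut X) * (g : TreeAut X)) w = 1
      rw [sec_mul, hg, mul_one]
      exact hok
  choose! a ha1 ha2 ha3 using h1
  have hinj : Set.InjOn a (C : Set (List X)) := by
    intro u hu u' hu' huu
    rw [← ha2 u hu, ← ha2 u' hu', huu]
  have hcard : (C.image a).card = C.card := Finset.card_image_of_injOn hinj
  have hay : ∀ u ∈ C, a u • (w ++ v) = u ++ v := by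
    intro u hu
    change (a u : TreeAut X) • (w ++ v) = u ++ v
    rw [app_append, ha3 u hu, one_smul]
    congr 1
    exact ha2 u hu
  refine ⟨C.image a, ?_, ⟨a w, Finset.mem_image_of_mem a (rch_self w L)⟩, ?_, ?_⟩
  · intro b hb
    obtain ⟨u, hu, rfl⟩ := Finset.mem_image.1 hb
    exact ha1 u hu
  · intro b hb b' hb' hbb
    obtain ⟨u, hu, rfl⟩ := Finset.mem_image.1 hb
    obtain ⟨u', hu', rfl⟩ := Finset.mem_image.1 hb'
    rw [hay u hu, hay u' hu'] at hbb
    rw [List.append_cancel_right hbb]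
  · rw [hcard]
    refine lt_of_le_of_lt (Nat.mul_le_mul_left c (Nat.pow_le_pow_left ?_ 2)) (not_le.1 hgood)
    rw [bdy, cnt]
    refine Finset.sum_le_sum fun s hs => ?_
    refine Finset.card_le_card_of_injOn (fun b => b • w) ?_ ?_
    · intro b hb
      obtain ⟨hb1, hb2⟩ := mem_bds.1 (Finset.mem_coe.1 hb)
      obtain ⟨u, hu, rfl⟩ := Finset.mem_image.1 hb1
      simp only [Finset.coe_filter, Set.mem_ofPred_eq]
      refine ⟨?_, ?_⟩
      · change a u • w ∈ C
        rw [ha2 u hu]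
        exact hu
      · change sec (s : TreeAut X) (a u • w) ≠ 1
        rw [ha2 u hu]
        intro h2
        have h3 : s • u ∈ C := hcl s (by
          exact mem_bl.2 (Or.inr (Or.inl hs))) u hu h2
        refine hb2 (a (s • u)) (Finset.mem_image_of_mem a h3) ?_
        rw [hay _ h3, hay u hu]
        change (s : TreeAut X) • u ++ v = (s : TreeAut X) • (u ++ v)
        rw [app_append, h2, one_smul]
    · intro b hb b' hb' hbb
      obtain ⟨u, hu, rfl⟩ := Finset.mem_image.1 (mem_bds.1 (Finset.mem_coe.1 hb)).1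
      obtain ⟨u', hu', rfl⟩ := Finset.mem_image.1 (mem_bds.1 (Finset.mem_coe.1 hb')).1
      change a u • w = a u' • w at hbb
      rw [ha2 u hu, ha2 u' hu'] at hbb
      rw [hbb]

open Classical in
/-- a small orbit is thin -/
theorem thin_of_small {Γ Ω : Type*} [Group Γ] [MulAction Γ Ω] (S : Finset Γ) (c L : ℕ) {V : Finset Ω}
    (hV : Closd (bl S) (fun _ _ => True) V) (hL : V.card ≤ L) {y : Ω} (hy : y ∈ V) :
    Thin S c (bpow (bl S) L) y := by
  set C := Rch (bl S) (fun _ _ => True) y L with hC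
  have hcl : Closd (bl S) (fun _ _ => True) C := rch_closd hy hV hL
  have h1 : ∀ u ∈ C, ∃ a ∈ bpow (bl S) L, a • y = u := by
    intro u hu
    obtain ⟨a, h1, h2, -⟩ := rch_elem (P := fun _ : Γ => True) trivial
      (fun _ _ _ _ _ => trivial) hu
    exact ⟨a, h1, h2⟩
  choose! a ha1 ha2 using h1
  refine ⟨C.image a, ?_, ⟨a y, Finset.mem_image_of_mem a (rch_self y L)⟩, ?_, ?_⟩
  · intro b hb
    obtain ⟨u, hu, rfl⟩ := Finset.mem_image.1 hb
    exact ha1 u hu
  · intro b hb b' hb' hbb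
    obtain ⟨u, hu, rfl⟩ := Finset.mem_image.1 hb
    obtain ⟨u', hu', rfl⟩ := Finset.mem_image.1 hb'
    rw [ha2 u hu, ha2 u' hu'] at hbb
    rw [hbb]
  · have h2 : bdy S (C.image a) y = 0 := by
      rw [bdy, Finset.sum_eq_zero_iff]
      intro s hs
      rw [Finset.card_eq_zero, Finset.eq_empty_iff_forall_notMem]
      intro b hb
      obtain ⟨hb1, hb2⟩ := mem_bds.1 hb
      obtain ⟨u, hu, rfl⟩ := Finset.mem_image.1 hb1
      have h3 : s • u ∈ C := hcl s
        (mem_bl.2 (Or.inr (Or.inl hs))) u hu trivial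
      refine hb2 (a (s • u)) (Finset.mem_image_of_mem a h3) ?_
      rw [ha2 _ h3, ha2 u hu]
    rw [h2]
    have h3 : 0 < (C.image a).card :=
      Finset.card_pos.2 ⟨a y, Finset.mem_image_of_mem a (rch_self y L)⟩
    simpa using h3

end H85.TA
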