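import Pool.Agent.H85.TB.Ym

/-!
# Uniformly thin actions
-/

set_option autoImplicit false

namespace H85.TA

open Pointwise

variable {G Ω : Type*} [Group G] [MulAction G Ω]

open Classical in
theorem va_of_thin [FaithfulSMul G Ω] (hmax : ∀ H : Subgroup G, H.FG)
    (h : ∀ (S : Finset G) (c : ℕ), ∃ W : Finset G, ∀ x : Ω, Thin S c W x) :
    VA (⊤ : Subgroup G) ⊥ := by
  have hcount := countable_of_max hmax
  obtain ⟨e, he⟩ := exists_surjective_nat G
  let S : ℕ → Finset G := fun i => (Finset.range (i + 1)).image e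
  choose W hW using fun i => h (S i) i
  choose B hBW hB1 hB2 hB3 using hW
  have hinj : ∀ i x, Set.InjOn (fun a => a • x) (B i x : Set G) := fun i x a ha b hb hab =>
    hB2 i x a ha b hb hab
  have hcard : ∀ i x, ((B i x).image fun a => a • x).card = (B i x).card := fun i x =>
    Finset.card_image_of_injOn (hinj i x)
  refine va_of_foelner hmax (fun i x => (B i x).image fun a => a • x)
    (fun i x => (hB1 i x).image _) ?_ ?_ ?_
  · intro i x y hy
    obtain ⟨a, -, rfl⟩ := Finset.mem_image.1 hy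
    exact ⟨a, rfl⟩
  · intro g m
    obtain ⟨j, rfl⟩ := he g
    refine ⟨max j m, fun i hi x => ?_⟩
    have hji : e j ∈ S i := Finset.mem_image.2 ⟨j, Finset.mem_range.2 (by
      have := (le_max_left j m).trans hi
      omega), rfl⟩
    have h1 : (((B i x).image fun a => a • x).filter fun y =>
        e j • y ∉ (B i x).image fun a => a • x).card ≤ bdy (S i) (B i x) x := by
      have h2 : (((B i x).image fun a => a • x).filter fun y =>
          e j • y ∉ (B i x).image fun a => a • x) ⊆
          (bds (B i x) x (e j)).image fun a => a • x := by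
        intro y hy
        rw [Finset.mem_filter] at hy
        obtain ⟨a, ha, rfl⟩ := Finset.mem_image.1 hy.1
        refine Finset.mem_image.2 ⟨a, mem_bds.2 ⟨ha, fun b hb hab => ?_⟩, rfl⟩
        exact hy.2 (Finset.mem_image.2 ⟨b, hb, hab⟩)
      refine (Finset.card_le_card h2).trans (Finset.card_image_le.trans ?_)
      exact Finset.single_le_sum
        (f := fun s => (bds (B i x) x s).card)
        (fun _ _ => Nat.zero_le _) hji
    rw [hcard]
    refine (Nat.mul_le_mul_left m h1).trans ?_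
    have h3 := hB3 i x
    rcases Nat.eq_zero_or_pos (bdy (S i) (B i x) x) with h4 | h4
    · rw [h4, mul_zero]
      exact Nat.zero_le _
    · have h5 : m ≤ i := (le_max_right j m).trans hi
      have h6 : m * bdy (S i) (B i x) x ≤ i * bdy (S i) (B i x) x ^ 2 := by
        refine Nat.mul_le_mul h5 ?_
        rw [pow_two]
        exact Nat.le_mul_of_pos_left _ h4
      exact (h6.trans_lt h3).le
  · intro T c m
    obtain ⟨W', hW'⟩ := h T c
    refine ⟨W', 0, fun i _ x => ?_⟩
    rw [Finset.filter_false_of_mem (fun y _ => not_not.2 (hW' y)), Finset.card_empty, mul_zero]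
    exact Nat.zero_le _

theorem grow_num (a : ℕ → ℕ) (C r : ℕ) (hC : 1 ≤ C) (h0 : 1 ≤ a 0)
    (h : ∀ n < r, a n ≤ a (n + 1) ∧ a n ≤ C * (a (n + 1) - a n) ^ 2) : r ^ 2 ≤ 9 * C * a r := by
  suffices H : ∀ n ≤ r, n ^ 2 ≤ 9 * C * a n ∧ 1 ≤ a n from (H r le_rfl).1
  intro n
  induction n with
  | zero =>
    intro _
    exact ⟨Nat.zero_le _, h0⟩
  | succ n ih =>
    intro hn
    obtain ⟨h1, h1'⟩ := ih (by omega)
    obtain ⟨h2, h3⟩ := h n (by omega)
    obtain ⟨d, hd⟩ := Nat.exists_eq_add_of_le h2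
    rw [hd, Nat.add_sub_cancel_left] at h3
    rw [hd]
    refine ⟨?_, by omega⟩
    have h4 : n ^ 2 ≤ (3 * C * d) ^ 2 := by
      calc n ^ 2 ≤ 9 * C * a n := h1
        _ ≤ 9 * C * (C * d ^ 2) := Nat.mul_le_mul_left _ h3
        _ = (3 * C * d) ^ 2 := by ring
    have h5 : n ≤ 3 * C * d := le_of_pow_le_pow_left₀ two_ne_zero (Nat.zero_le _) h4
    rcases Nat.eq_zero_or_pos n with rfl | hnp
    · have h6 : 1 ≤ C * (a 0 + d) := Nat.mul_pos hC (by omega)
      have h7 : 9 * C * (a 0 + d) = 9 * (C * (a 0 + d)) := by ring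
      rw [h7]
      omega
    · have h6 : 9 * C * (a n + d) = 9 * C * a n + 3 * (3 * C * d) := by ring
      rw [h6]
      nlinarith

open Classical in
/-- the points at distance at most `r` from `x` -/
noncomputable def Bl (T : Finset G) (r : ℕ) (x : Ω) : Finset Ω := ((ball T) ^ r).image fun g => g • x

open Classical in
theorem thin_of_growth (S T : Finset G) (hST : S ⊆ T) (c r : ℕ) (x : Ω)
    (h : (9 * (c * S.card ^ 2 + 1) + 1) * (Bl T r x).card ≤ r ^ 2) :
    Thin S c ((ball T) ^ r) x := by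
  by_contra hcon
  have hself : ∀ n, x ∈ Bl T n x := fun n => by
    refine Finset.mem_image.2 ⟨1, ?_, one_smul _ _⟩
    exact Finset.one_mem_pow (one_mem_ball T)
  have hmono : ∀ {m n : ℕ}, m ≤ n → Bl T m x ⊆ Bl T n x := fun {m n} hmn =>
    Finset.image_subset_image (pow_mono T hmn)
  have h1 : ∀ n < r, (Bl T n x).card ≤ (Bl T (n + 1) x).card ∧ (Bl T n x).card ≤
      (c * S.card ^ 2 + 1) * ((Bl T (n + 1) x).card - (Bl T n x).card) ^ 2 := by
    intro n hn
    refine ⟨Finset.card_le_card (hmono (Nat.le_succ n)), ?_⟩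
    by_contra hlt
    rw [not_le] at hlt
    refine hcon ?_
    have h2 : ∀ z ∈ Bl T n x, ∃ g ∈ (ball T) ^ n, g • x = z := fun z hz => Finset.mem_image.1 hz
    choose! g hg hgx using h2
    have hinj : Set.InjOn g (Bl T n x : Set Ω) := by
      intro a ha b hb hab
      rw [← hgx a ha, ← hgx b hb, hab]
    have hc : ((Bl T n x).image g).card = (Bl T n x).card := Finset.card_image_of_injOn hinj
    refine ⟨(Bl T n x).image g, ?_, ⟨g x, Finset.mem_image_of_mem g (hself n)⟩, ?_, ?_⟩
    · intro a ha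
      obtain ⟨z, hz, rfl⟩ := Finset.mem_image.1 ha
      exact pow_mono T hn.le (hg z hz)
    · intro a ha b hb hab
      obtain ⟨z, hz, rfl⟩ := Finset.mem_image.1 ha
      obtain ⟨z', hz', rfl⟩ := Finset.mem_image.1 hb
      rw [hgx z hz, hgx z' hz'] at hab
      rw [hab]
    · rw [hc]
      refine lt_of_le_of_lt ?_ hlt
      have h3 : bdy S ((Bl T n x).image g) x ≤
          S.card * ((Bl T (n + 1) x).card - (Bl T n x).card) := by
        rw [bdy, ← smul_eq_mul, ← Finset.sum_const]
        refine Finset.sum_le_sum fun s hs => ?_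
        rw [← Finset.card_sdiff_of_subset (hmono (Nat.le_succ n))]
        refine Finset.card_le_card_of_injOn (fun a => s • a • x) ?_ ?_
        · intro a ha
          have ha1 := mem_bds.1 (Finset.mem_coe.1 ha)
          obtain ⟨z, hz, rfl⟩ := Finset.mem_image.1 ha1.1
          refine Finset.mem_coe.2 (Finset.mem_sdiff.2 ⟨?_, ?_⟩)
          · refine Finset.mem_image.2 ⟨s * g z, ?_, mul_smul _ _ _⟩
            rw [pow_succ']
            refine Finset.mul_mem_mul ?_ (hg z hz)
            exact Finset.mem_insert_of_mem (Finset.mem_union_left _ (hST hs))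
          · intro h4
            exact ha1.2 (g (s • g z • x)) (Finset.mem_image_of_mem g h4) (hgx _ h4)
        · intro a ha b hb hab
          have ha1 := (mem_bds.1 (Finset.mem_coe.1 ha)).1
          have hb1 := (mem_bds.1 (Finset.mem_coe.1 hb)).1
          obtain ⟨z, hz, rfl⟩ := Finset.mem_image.1 ha1
          obtain ⟨z', hz', rfl⟩ := Finset.mem_image.1 hb1
          have h5 := smul_left_cancel s hab
          rw [hgx z hz, hgx z' hz'] at h5
          rw [h5]
      calc c * bdy S ((Bl T n x).image g) x ^ 2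
          ≤ c * (S.card * ((Bl T (n + 1) x).card - (Bl T n x).card)) ^ 2 :=
            Nat.mul_le_mul_left c (Nat.pow_le_pow_left h3 2)
        _ = c * S.card ^ 2 * ((Bl T (n + 1) x).card - (Bl T n x).card) ^ 2 := by ring
        _ ≤ _ := Nat.mul_le_mul_right _ (Nat.le_succ _)
  have h2 := grow_num (fun n => (Bl T n x).card) (c * S.card ^ 2 + 1) r (Nat.le_add_left _ _)
    (Finset.card_pos.2 ⟨x, hself 0⟩) h1
  have h3 : 0 < (Bl T r x).card := Finset.card_pos.2 ⟨x, hself r⟩
  have h4 : (9 * (c * S.card ^ 2 + 1) + 1) * (Bl T r x).card =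
      9 * (c * S.card ^ 2 + 1) * (Bl T r x).card + (Bl T r x).card := by ring
  rw [h4] at h
  change r ^ 2 ≤ 9 * (c * S.card ^ 2 + 1) * (Bl T r x).card at h2
  omega

/-- the points at distance at most `r` from `x` in the Schreier graph of the action on `Ω` -/
def sball (S : Finset G) (r : ℕ) (x : Ω) : Set Ω :=
  {y | ∃ l : List G, l.length ≤ r ∧ (∀ s ∈ l, s ∈ S ∨ s⁻¹ ∈ S) ∧ l.prod • x = y}

open Classical in
theorem mem_pow_iff (S : Finset G) (r : ℕ) (g : G) :
    g ∈ (ball S) ^ r ↔ ∃ l : List G, l.length ≤ r ∧ (∀ s ∈ l, s ∈ S ∨ s⁻¹ ∈ S) ∧ l.prod = g := by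
  induction r generalizing g with
  | zero =>
    rw [pow_zero, Finset.mem_one]
    constructor
    · rintro rfl
      exact ⟨[], by simp, by simp, by simp⟩
    · rintro ⟨l, h1, -, rfl⟩
      rw [List.length_eq_zero_iff.1 (Nat.le_zero.1 h1), List.prod_nil]
  | succ r ih =>
    rw [pow_succ', Finset.mem_mul]
    constructor
    · rintro ⟨b, hb, h, hh, rfl⟩
      obtain ⟨l, h1, h2, rfl⟩ := (ih h).1 hh
      simp only [ball, Finset.mem_insert, Finset.mem_union, Finset.mem_inv'] at hb
      rcases hb with rfl | hb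
      · exact ⟨l, by omega, h2, by rw [one_mul]⟩
      · refine ⟨b :: l, by rw [List.length_cons]; omega, ?_, List.prod_cons⟩
        intro s hs
        rcases List.mem_cons.1 hs with rfl | hs
        · exact hb
        · exact h2 s hs
    · rintro ⟨l, h1, h2, rfl⟩
      cases l with
      | nil =>
        refine ⟨1, one_mem_ball S, 1, (ih 1).2 ⟨[], by simp, by simp, by simp⟩, by simp⟩
      | cons b l =>
        refine ⟨b, ?_, l.prod, (ih _).2 ⟨l, ?_, fun s hs => h2 s (List.mem_cons_of_mem _ hs), rfl⟩,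
          List.prod_cons.symm⟩
        · simp only [ball, Finset.mem_insert, Finset.mem_union, Finset.mem_inv']
          exact Or.inr (h2 b List.mem_cons_self)
        · rw [List.length_cons] at h1
          omega

open Classical in
theorem sball_eq (S : Finset G) (r : ℕ) (x : Ω) : sball S r x = (Bl S r x : Set Ω) := by
  ext y
  rw [Finset.mem_coe, Bl, Finset.mem_image]
  constructor
  · rintro ⟨l, h1, h2, h3⟩
    exact ⟨l.prod, (mem_pow_iff S r _).2 ⟨l, h1, h2, rfl⟩, h3⟩
  · rintro ⟨g, hg, rfl⟩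
    obtain ⟨l, h1, h2, rfl⟩ := (mem_pow_iff S r g).1 hg
    exact ⟨l, h1, h2, rfl⟩

open Classical in
/-- uniformly subquadratic growth of the Schreier graphs -/
theorem va_of_growth [FaithfulSMul G Ω] (hmax : ∀ H : Subgroup G, H.FG) (S : Finset G)
    (hS : Subgroup.closure (S : Set G) = ⊤)
    (h : ∀ C : ℕ, ∃ r ≥ 1, ∀ x : Ω, C * (sball S r x).ncard ≤ r ^ 2) :
    VA (⊤ : Subgroup G) ⊥ := by
  rcases isEmpty_or_nonempty Ω with hΩ | hΩ
  · have h0 : ∀ g : G, g = 1 := fun g => FaithfulSMul.eq_of_smul_eq_smul (α := Ω) fun x =>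
      (hΩ.false x).elim
    have : Finite G := ⟨⟨fun g => (0 : Fin 1), fun _ => 1, fun g => (h0 g).symm,
      fun i => Subsingleton.elim _ _⟩⟩
    exact VA.of_finite (Set.toFinite _)
  obtain ⟨x₀⟩ := hΩ
  refine va_of_thin (Ω := Ω) hmax fun T c => ?_
  have h1 : ∀ t : G, ∃ p, t ∈ (ball S) ^ p := fun t => exists_mem_pow S (by
    rw [hS]
    exact Subgroup.mem_top t)
  choose p hp using h1
  let q : ℕ := (ball T).sup p + 1
  have hq : ball T ⊆ (ball S) ^ q := by
    intro t ht
    refine pow_mono S ?_ (hp t)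
    exact (Finset.le_sup (f := p) ht).trans (Nat.le_succ _)
  have hqr : ∀ n, (ball T) ^ n ⊆ (ball S) ^ (q * n) := by
    intro n
    rw [pow_mul]
    exact Finset.pow_subset_pow_left hq
  let C : ℕ := 9 * (c * T.card ^ 2 + 1) + 1
  obtain ⟨r, hr, hr'⟩ := h (4 * q ^ 2 * C)
  have hpos : ∀ x : Ω, 0 < (sball S r x).ncard := by
    intro x
    rw [sball_eq, Set.ncard_coe_finset, Finset.card_pos]
    exact ⟨x, Finset.mem_image.2 ⟨1, Finset.one_mem_pow (one_mem_ball S), one_smul _ _⟩⟩
  -- r ≥ q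
  have hqpos : 0 < q := Nat.succ_pos _
  have hrq : q ≤ r := by
    have h2 := hr' x₀
    have h3 : q ^ 2 ≤ r ^ 2 := by
      refine le_trans ?_ h2
      have h4 : 1 ≤ 4 * C * (sball S r x₀).ncard := Nat.mul_pos (by positivity) (hpos x₀)
      calc q ^ 2 ≤ q ^ 2 * (4 * C * (sball S r x₀).ncard) := Nat.le_mul_of_pos_right _ h4
        _ = _ := by ring
    exact le_of_pow_le_pow_left₀ two_ne_zero (Nat.zero_le _) h3
  refine ⟨(ball T) ^ (r / q), fun x => thin_of_growth T T (Finset.Subset.refl T) c (r / q) x ?_⟩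
  have h5 : (Bl T (r / q) x).card ≤ (sball S r x).ncard := by
    rw [sball_eq, Set.ncard_coe_finset]
    refine Finset.card_le_card (Finset.image_subset_image ((hqr _).trans (pow_mono S ?_)))
    exact Nat.mul_div_le r q
  have h6 : r < 2 * (q * (r / q)) := by
    have h7 : r < q * (r / q) + q := Nat.lt_mul_div_succ r hqpos
    have h8 : 1 ≤ r / q := (Nat.one_le_div_iff hqpos).2 hrq
    have h9 : q ≤ q * (r / q) := Nat.le_mul_of_pos_right _ h8
    omega
  have h10 : 4 * q ^ 2 * (C * (sball S r x).ncard) ≤ 4 * q ^ 2 * (r / q) ^ 2 := by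
    calc 4 * q ^ 2 * (C * (sball S r x).ncard) = 4 * q ^ 2 * C * (sball S r x).ncard := by ring
      _ ≤ r ^ 2 := hr' x
      _ ≤ (2 * (q * (r / q))) ^ 2 := Nat.pow_le_pow_left h6.le 2
      _ = 4 * q ^ 2 * (r / q) ^ 2 := by ring
  have h11 : C * (sball S r x).ncard ≤ (r / q) ^ 2 :=
    Nat.le_of_mul_le_mul_left h10 (by positivity)
  exact (Nat.mul_le_mul_left C h5).trans h11

end H85.TA
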